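import Pool.Agent.SplG.Disc
import Pool.Agent.SplZ.Final

/-!
# The generic dimension of all discs from `HA` and `HB`
-/

set_option autoImplicit false

namespace Pool.Agent.SplG

open Finset Pool.Agent.Spl1 Pool.Agent.Spl2 Pool.Agent.SplD Pool.Agent.SplZ

variable {V : Type} [Fintype V] [DecidableEq V]

/-- **the generic dimension of all discs** -/
theorem gen_sch {T : Finset (Finset V)} (hT : Disc T) {p₀ : V × Fin 2 → ℝ} (hp₀ : IsTriang p₀ T)
    {q δ : ℕ} (hδ : 1 ≤ δ) (h1 : 2 * δ ≤ 3 * q) (h2 : 3 * q ≤ 2 * δ + 3)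
    (hA : HA (Option V) q δ) (hB : HB (Option V) q δ) (r k : ℕ) (hr : r + 1 ≤ δ)
    (hk : r + δ ≤ k) : GenSch r k T := by
  obtain ⟨τ, hτ, hZ⟩ := disc_z (good_of_disc hp₀ hT) hT.dconn hT.ne hδ h1 h2 rfl hA hB
  refine gen_of_z_real hT hp₀ (2 * δ - 1) δ τ hδ ?_ ?_ hZ r k hk (by omega)
  · intro v _
    rcases hτ v with h | h <;> omega
  · intro u _ v _ _ _
    rcases hτ u with h | h <;> rcases hτ v with h' | h' <;> omega

end Pool.Agent.SplG
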