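import Pool.Agent.SplG.Few

/-!
# The configuration `T1` in the limit `θ = 0`
-/

set_option autoImplicit false

namespace Pool.Agent.SplG

open Polynomial

variable {K : Type*} [Field K] [CharZero K]

theorem core0 {q δ t : ℕ} (h1 : 2 * δ ≤ 3 * q) (h2 : 3 * q ≤ 2 * δ + 3) (ht : t = δ / 2 + 1)
    (lam kap : ℕ → K[X])
    (hl : ∀ s < q, ∀ m, 2 * δ ≤ s + 3 * min (δ - s) q + m → (lam s).coeff m = 0)
    (hk : ∀ s < t, ∀ m, 2 * δ ≤ s + 2 * min (δ - s) q + m → (kap s).coeff m = 0)
    (h : ∀ i j, i < q → j < t → i + j < δ →
      ∑ s ∈ Finset.range (i + 1), (-1) ^ s * ((i + j - s).choose (i - s) : K) *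
        ((1 + X) ^ (min (δ - s) q) * lam s).coeff (i + j - s) =
      ∑ s ∈ Finset.range (j + 1), ((i + j - s).choose (j - s) : K) * (kap s).coeff (i + j - s)) :
    (∀ s < q, lam s = 0) ∧ (∀ s < t, kap s = 0) := by
  have hlt : ∀ s < q, s < t → lam s = 0 := by
    intro s hs hst
    ext m
    rw [coeff_zero]
    exact hl s hs m (by omega)
  have hA : ∀ e, 2 * δ ≤ e + 2 * q → e < δ → ∀ i, i < q → i ≤ e →
      ((1 + X) ^ (min (δ - i) q) * lam i).coeff (e - i) = 0 := by
    intro e he1 he2 i
    induction i using Nat.strong_induction_on with
    | _ i ih =>
      intro hiq hie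
      by_cases hit : i < t
      · rw [hlt i hiq hit, mul_zero, coeff_zero]
      · have h3 := h i (e - i) hiq (by omega) (by omega)
        rw [show i + (e - i) = e by omega] at h3
        rw [Finset.sum_range_succ, Finset.sum_eq_zero, zero_add, Nat.sub_self, Nat.choose_zero_right,
          Finset.sum_eq_zero] at h3
        · rcases mul_eq_zero.1 h3 with h4 | h4
          · simp at h4
          · exact h4
        · intro s hs
          rw [Finset.mem_range] at hs
          rw [hk s (by omega) (e - s) (by omega), mul_zero]
        · intro s hs
          rw [Finset.mem_range] at hs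
          rw [ih s hs (by omega) (by omega), mul_zero]
  have hlam : ∀ s < q, lam s = 0 := by
    intro s hs
    by_cases hst : s < t
    · exact hlt s hs hst
    · by_contra hne
      have hM : min (δ - s) q = δ - s := by omega
      have hdeg : (lam s).natDegree + (δ - s) < s := by
        have h4 : ¬ 2 * δ ≤ s + 3 * min (δ - s) q + (lam s).natDegree := by
          intro h5
          have h6 := hl s hs _ h5
          rw [coeff_natDegree, leadingCoeff_eq_zero] at h6
          exact hne h6
        omega
      have hf : ((1 + X : K[X]) ^ (δ - s) * lam s) = 0 := by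
        apply few_terms (δ - s) _ (dvd_mul_right _ _)
        have hsub : ((1 + X : K[X]) ^ (δ - s) * lam s).support ⊆
            Finset.range (2 * δ - 2 * q - s) ∪ Finset.Ico (δ - s) s := by
          intro m hm
          rw [mem_support_iff] at hm
          rw [Finset.mem_union, Finset.mem_range, Finset.mem_Ico]
          by_contra hcon
          push Not at hcon
          apply hm
          by_cases hms : m < s
          · have h5 := hA (s + m) (by omega) (by omega) s hs (by omega)
            rw [hM, show s + m - s = m by omega] at h5
            exact h5
          · apply coeff_eq_zero_of_natDegree_lt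
            have h6 : ((1 + X : K[X]) ^ (δ - s) * lam s).natDegree ≤
                (δ - s) * 1 + (lam s).natDegree := by
              refine natDegree_mul_le.trans (Nat.add_le_add_right ?_ _)
              refine natDegree_pow_le.trans (Nat.mul_le_mul_left _ ?_)
              refine (natDegree_add_le _ _).trans ?_
              simp
            omega
        refine (Finset.card_le_card hsub).trans ((Finset.card_union_le _ _).trans ?_)
        rw [Finset.card_range, Nat.card_Ico]
        omega
      rcases mul_eq_zero.1 hf with h7 | h7
      · have h8 : (1 + X : K[X]) ≠ 0 := by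
          intro h9
          have := congrArg (eval 0) h9
          simp at this
        exact h8 (eq_zero_of_pow_eq_zero h7)
      · exact hne h7
  refine ⟨hlam, ?_⟩
  have hB : ∀ e, e < δ → ∀ j, j < t → j ≤ e → (kap j).coeff (e - j) = 0 := by
    intro e he j
    induction j using Nat.strong_induction_on with
    | _ j ih =>
      intro hjt hje
      by_cases hq : e - j < q
      · have h3 := h (e - j) j hq hjt (by omega)
        rw [show e - j + j = e by omega] at h3
        rw [Finset.sum_eq_zero, Finset.sum_range_succ, Finset.sum_eq_zero, zero_add, Nat.sub_self,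
          Nat.choose_zero_right, Nat.cast_one, one_mul] at h3
        · exact h3.symm
        · intro s hs
          rw [Finset.mem_range] at hs
          rw [ih s hs (by omega) (by omega), mul_zero]
        · intro s hs
          rw [Finset.mem_range] at hs
          rw [hlam s (by omega), mul_zero, coeff_zero, mul_zero]
      · exact hk j hjt (e - j) (by omega)
  intro s hs
  ext m
  rw [coeff_zero]
  by_cases h3 : s + m < δ
  · have h4 := hB (s + m) h3 s hs (by omega)
    rwa [show s + m - s = m by omega] at h4
  · exact hk s hs m (by omega)

end Pool.Agent.SplG
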