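import Pool.Agent.SplG.CoreA
import Pool.Agent.Spl2.BrMat

/-!
# The configuration `T1` for generic `θ`
-/

set_option autoImplicit false

namespace Pool.Agent.SplG

open Polynomial

variable {K : Type*} [Field K]

theorem inj_theta [Infinite K] {S : Type*} [AddCommGroup S] [Module K S] [Module.Finite K S]
    {ι : Type*} [Fintype ι] [DecidableEq ι] (Ψ : ι → S →ₗ[K] K[X])
    (h0 : ∀ x, (∀ i, eval 0 (Ψ i x) = 0) → x = 0) (B : Finset K) :
    ∃ θ, θ ∉ B ∧ ∀ x, (∀ i, eval θ (Ψ i x) = 0) → x = 0 := by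
  classical
  let n := Module.finrank K S
  let b := Module.finBasis K S
  let M : Matrix ι (Fin n) K[X] := fun i j => Ψ i (b j)
  have key : ∀ (θ : K) (c : Fin n → K) (i : ι),
      (M.map (eval θ)).mulVec c i = eval θ (Ψ i (∑ j, c j • b j)) := by
    intro θ c i
    rw [map_sum, eval_finsetSum, Matrix.mulVec, dotProduct]
    refine Finset.sum_congr rfl fun j _ => ?_
    rw [map_smul, eval_smul, smul_eq_mul, mul_comm, Matrix.map_apply]
  have hli : LinearIndependent K (M.map (eval 0)).col := by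
    rw [← Matrix.mulVec_injective_iff]
    intro c c' hcc
    have h1 : (M.map (eval 0)).mulVec (c - c') = 0 := by
      rw [Matrix.mulVec_sub, sub_eq_zero]
      exact hcc
    have h2 := h0 (∑ j, (c - c') j • b j) (fun i => by
      rw [← key 0 (c - c') i, h1, Pi.zero_apply])
    have h3 := (Fintype.linearIndependent_iff.1 b.linearIndependent) (c - c') h2
    funext j
    exact sub_eq_zero.1 (h3 j)
  obtain ⟨f, hf⟩ := Pool.Agent.Spl2.exists_rows_of_col_li _ hli
  let D : K[X] := (M.submatrix f id).det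
  have hD : ∀ θ, eval θ D = ((M.map (eval θ)).submatrix f id).det := by
    intro θ
    have h1 := RingHom.map_det (evalRingHom θ) (M.submatrix f id)
    rw [coe_evalRingHom] at h1
    rw [h1]
    rfl
  have hD0 : D ≠ 0 := by
    intro h
    have h1 := hD 0
    rw [h, eval_zero] at h1
    exact hf h1.symm
  obtain ⟨θ, hθ⟩ := Infinite.exists_notMem_finset (B ∪ D.roots.toFinset)
  rw [Finset.mem_union, not_or, Multiset.mem_toFinset, mem_roots hD0, IsRoot.def] at hθ
  refine ⟨θ, hθ.1, fun x hx => ?_⟩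
  have h1 : x = ∑ j, b.repr x j • b j := (b.sum_repr x).symm
  have h2 : ((M.map (eval θ)).submatrix f id).mulVec (fun j => b.repr x j) = 0 := by
    funext i
    have h3 := key θ (fun j => b.repr x j) (f i)
    rw [← h1, hx (f i)] at h3
    exact h3
  have h4 := Matrix.eq_zero_of_mulVec_eq_zero (by rw [← hD θ]; exact hθ.2) h2
  rw [h1]
  refine Finset.sum_eq_zero fun j _ => ?_
  have h5 := congrFun h4 j
  simp only [Pi.zero_apply] at h5
  rw [h5, zero_smul]

/-- the sum of the terms of `x` -/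
noncomputable def rS (M : ℕ → ℕ) (i e : ℕ) (A : K[X][X]) (sg : ℕ → K) {n : ℕ} {N : Fin n → ℕ} :
    (∀ s : Fin n, degreeLT K (N s)) →ₗ[K] K[X] where
  toFun x := ∑ s : Fin n, if (s : ℕ) ≤ i then
    C (sg s * ((e - s).choose (i - s) : K)) *
      ((A ^ (M s) * (1 + C X * X) ^ (M s) * (x s : K[X]).map C).coeff (e - s)) else 0
  map_add' x y := by
    rw [← Finset.sum_add_distrib]
    refine Finset.sum_congr rfl fun s _ => ?_
    split_ifs
    · rw [Pi.add_apply, Submodule.coe_add, Polynomial.map_add, mul_add, coeff_add, mul_add]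
    · rw [add_zero]
  map_smul' c x := by
    rw [RingHom.id_apply, Finset.smul_sum]
    refine Finset.sum_congr rfl fun s _ => ?_
    split_ifs
    · rw [Pi.smul_apply, Submodule.coe_smul, smul_eq_C_mul, smul_eq_C_mul, Polynomial.map_mul,
        map_C]
      have h1 : A ^ (M s) * (1 + C X * X) ^ (M s) * (C (C c) * (x s : K[X]).map C) =
          C (C c) * (A ^ (M s) * (1 + C X * X) ^ (M s) * (x s : K[X]).map C) := by ring
      rw [h1, coeff_C_mul]
      ring
    · rw [smul_zero]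

theorem eval_rS (M : ℕ → ℕ) (i e : ℕ) (A : K[X][X]) (sg : ℕ → K) {n : ℕ} {N : Fin n → ℕ}
    (x : ∀ s : Fin n, degreeLT K (N s)) (θ : K) (y : ℕ → K[X]) (hy : ∀ s : Fin n, (x s : K[X]) = y s)
    (hi : i < n) :
    eval θ (rS M i e A sg x) = ∑ s ∈ Finset.range (i + 1), sg s * ((e - s).choose (i - s) : K) *
      ((A.map (evalRingHom θ)) ^ (M s) * (1 + C θ * X) ^ (M s) * y s).coeff (e - s) := by
  unfold rS
  rw [LinearMap.coe_mk, AddHom.coe_mk, eval_finsetSum]
  have h1 : ∀ s : Fin n, eval θ (if (s : ℕ) ≤ i then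
    C (sg s * ((e - s).choose (i - s) : K)) *
      ((A ^ (M s) * (1 + C X * X) ^ (M s) * (x s : K[X]).map C).coeff (e - s)) else 0) =
      (fun s : ℕ => if s ≤ i then sg s * ((e - s).choose (i - s) : K) *
      ((A.map (evalRingHom θ)) ^ (M s) * (1 + C θ * X) ^ (M s) * y s).coeff (e - s) else 0) (s : ℕ) := by
    intro s
    simp only
    split_ifs
    · rw [eval_mul, eval_C]
      congr 1
      rw [← coe_evalRingHom, ← coeff_map, Polynomial.map_mul, Polynomial.map_mul,
        Polynomial.map_pow, Polynomial.map_pow, map_map, hy s]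
      have h2 : (evalRingHom θ).comp (C : K →+* K[X]) = RingHom.id K := by
        ext a
        simp
      rw [h2, map_id]
      simp
    · rw [eval_zero]
  rw [Finset.sum_congr rfl (fun s _ => h1 s)]
  refine (Fin.sum_univ_eq_sum_range (fun s : ℕ => if s ≤ i then
    sg s * ((e - s).choose (i - s) : K) *
      ((A.map (evalRingHom θ)) ^ (M s) * (1 + C θ * X) ^ (M s) * y s).coeff (e - s) else 0) n).trans ?_
  have h3 : Finset.range (i + 1) = (Finset.range n).filter (fun s => s ≤ i) := by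
    ext s
    rw [Finset.mem_range, Finset.mem_filter, Finset.mem_range]
    omega
  rw [h3, Finset.sum_filter]

/-- the value of a polynomial family -/
theorem coeff_zero_of_dvd {f g : K[X]} {N D : ℕ} (hd : f.natDegree = D) (hf : f ≠ 0)
    (h : ∀ m, N ≤ m → (f * g).coeff m = 0) {m : ℕ} (hm : N ≤ D + m) : g.coeff m = 0 := by
  by_cases hg : g = 0
  · rw [hg, coeff_zero]
  · have h1 : (f * g).natDegree < N := by
      by_contra h2
      push Not at h2
      have h3 := h _ h2
      rw [coeff_natDegree, leadingCoeff_eq_zero] at h3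
      exact (mul_ne_zero hf hg) h3
    rw [natDegree_mul hf hg, hd] at h1
    exact coeff_eq_zero_of_natDegree_lt (by omega)

theorem natDegree_lin {θ : K} (hθ : θ ≠ 0) (M : ℕ) : ((1 + C θ * X : K[X]) ^ M).natDegree = M := by
  rw [natDegree_pow, show (1 + C θ * X : K[X]) = C θ * X + C 1 by rw [C_1]; ring,
    natDegree_linear hθ, mul_one]

theorem lin_ne {θ : K} (M : ℕ) : ((1 + C θ * X : K[X]) ^ M) ≠ 0 := by
  apply pow_ne_zero
  intro h
  have := congrArg (eval 0) h
  simp at this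

theorem exists_theta [CharZero K] {q δ t : ℕ} (h1 : 2 * δ ≤ 3 * q) (h2 : 3 * q ≤ 2 * δ + 3)
    (ht : t = δ / 2 + 1) (B : Finset K) :
    ∃ θ, θ ∉ B ∧ ∀ α β : ℕ → K[X],
      (∀ s < q, ∀ m, 2 * δ ≤ s + min (δ - s) q + m → (α s).coeff m = 0) →
      (∀ s < q, (1 + X) ^ (min (δ - s) q) ∣ α s) →
      (∀ s < q, (1 + C θ * X) ^ (min (δ - s) q) ∣ α s) →
      (∀ s < t, ∀ m, 2 * δ ≤ s + min (δ - s) q + m → (β s).coeff m = 0) →
      (∀ s < t, (1 + C θ * X) ^ (min (δ - s) q) ∣ β s) →
      (∀ i j, i < q → j < t → i + j < δ →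
        ∑ s ∈ Finset.range (i + 1), (-1) ^ s * ((i + j - s).choose (i - s) : K) *
          (α s).coeff (i + j - s) =
        ∑ s ∈ Finset.range (j + 1), ((i + j - s).choose (j - s) : K) * (β s).coeff (i + j - s)) →
      (∀ s < q, α s = 0) ∧ (∀ s < t, β s = 0) := by
  classical
  let M : ℕ → ℕ := fun s => min (δ - s) q
  let Nl : Fin q → ℕ := fun s => 2 * δ - (s + 3 * M s)
  let Nk : Fin t → ℕ := fun s => 2 * δ - (s + 2 * M s)
  let S : Type _ := (∀ s : Fin q, degreeLT K (Nl s)) × (∀ s : Fin t, degreeLT K (Nk s))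
  have hfin : ∀ n, Module.Finite K (degreeLT K n) := fun n =>
    Module.Finite.equiv (degreeLTEquiv K n).symm
  have hS : Module.Finite K S := inferInstanceAs (Module.Finite K (_ × _))
  let Ψ : Fin q × Fin t → S →ₗ[K] K[X] := fun ij =>
    if (ij.1 : ℕ) + ij.2 < δ then
      (rS M ij.1 (ij.1 + ij.2) (1 + X) (fun s => (-1) ^ s)).comp (LinearMap.fst K _ _) -
        (rS M ij.2 (ij.1 + ij.2) 1 (fun _ => 1)).comp (LinearMap.snd K _ _)
    else 0
  have hΨ : ∀ (x : S) (θ : K) (lam kap : ℕ → K[X]), (∀ s : Fin q, (x.1 s : K[X]) = lam s) →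
      (∀ s : Fin t, (x.2 s : K[X]) = kap s) → ∀ i j, ∀ hi : i < q, ∀ hj : j < t, i + j < δ →
      eval θ (Ψ (⟨i, hi⟩, ⟨j, hj⟩) x) =
        ∑ s ∈ Finset.range (i + 1), (-1) ^ s * ((i + j - s).choose (i - s) : K) *
          ((1 + X) ^ (M s) * (1 + C θ * X) ^ (M s) * lam s).coeff (i + j - s) -
        ∑ s ∈ Finset.range (j + 1), ((i + j - s).choose (j - s) : K) *
          ((1 + C θ * X) ^ (M s) * kap s).coeff (i + j - s) := by
    intro x θ lam kap hl hk i j hi hj hij
    have e1 : Ψ (⟨i, hi⟩, ⟨j, hj⟩) x = rS M i (i + j) (1 + X) (fun s => (-1) ^ s) x.1 -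
        rS M j (i + j) 1 (fun _ => 1) x.2 := by
      simp only [Ψ]
      rw [if_pos hij]
      rfl
    rw [e1, eval_sub, eval_rS M i (i + j) (1 + X) _ x.1 θ lam hl hi,
      eval_rS M j (i + j) 1 _ x.2 θ kap hk hj]
    simp
  have h0 : ∀ x : S, (∀ ij, eval 0 (Ψ ij x) = 0) → x = 0 := by
    intro x hx
    let lam : ℕ → K[X] := fun s => if h : s < q then (x.1 ⟨s, h⟩ : K[X]) else 0
    let kap : ℕ → K[X] := fun s => if h : s < t then (x.2 ⟨s, h⟩ : K[X]) else 0
    have hl : ∀ s : Fin q, (x.1 s : K[X]) = lam s := fun s => by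
      simp only [lam]
      rw [dif_pos s.2]
    have hk : ∀ s : Fin t, (x.2 s : K[X]) = kap s := fun s => by
      simp only [kap]
      rw [dif_pos s.2]
    have h3 := core0 h1 h2 ht lam kap ?_ ?_ ?_
    · refine Prod.ext ?_ ?_
      · funext s
        apply Subtype.ext
        rw [hl s, h3.1 s s.2]
        rfl
      · funext s
        apply Subtype.ext
        rw [hk s, h3.2 s s.2]
        rfl
    · intro s hs m hm
      have h4 := (x.1 ⟨s, hs⟩).2
      rw [hl ⟨s, hs⟩, mem_degreeLT, degree_lt_iff_coeff_zero] at h4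
      apply h4
      simp only [Nl, M]
      omega
    · intro s hs m hm
      have h4 := (x.2 ⟨s, hs⟩).2
      rw [hk ⟨s, hs⟩, mem_degreeLT, degree_lt_iff_coeff_zero] at h4
      apply h4
      simp only [Nk, M]
      omega
    · intro i j hi hj hij
      have h4 := hx (⟨i, hi⟩, ⟨j, hj⟩)
      rw [hΨ x 0 lam kap hl hk i j hi hj hij, sub_eq_zero] at h4
      simpa using h4
  obtain ⟨θ, hθ, hθ'⟩ := inj_theta Ψ h0 (insert 0 (insert 1 B))
  rw [Finset.mem_insert, Finset.mem_insert, not_or, not_or] at hθ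
  refine ⟨θ, hθ.2.2, ?_⟩
  intro α β a1 a2 a3 b1 b2 hij
  have hcop : IsCoprime (1 + X : K[X]) (1 + C θ * X) := by
    refine ⟨C (-θ / (1 - θ)), C (1 / (1 - θ)), ?_⟩
    have h5 : (1 - θ) ≠ 0 := sub_ne_zero.2 (Ne.symm hθ.2.1)
    have h6 : C (-θ / (1 - θ)) + C (1 / (1 - θ)) = (1 : K[X]) := by
      rw [← C_add, ← C_1]
      congr 1
      field_simp
      ring
    have h7 : C (-θ / (1 - θ)) + C (1 / (1 - θ)) * C θ = (0 : K[X]) := by
      rw [← C_mul, ← C_add, ← C_0]
      congr 1
      field_simp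
      ring
    calc _ = (C (-θ / (1 - θ)) + C (1 / (1 - θ))) +
        (C (-θ / (1 - θ)) + C (1 / (1 - θ)) * C θ) * X := by ring
      _ = 1 := by rw [h6, h7]; ring
  have hlam : ∀ s, ∃ l : K[X], s < q → α s = (1 + X) ^ (M s) * (1 + C θ * X) ^ (M s) * l := by
    intro s
    by_cases hs : s < q
    · obtain ⟨l, hl⟩ := (hcop.pow (m := M s) (n := M s)).mul_dvd (a2 s hs) (a3 s hs)
      exact ⟨l, fun _ => hl⟩
    · exact ⟨0, fun h => absurd h hs⟩
  have hkap : ∀ s, ∃ l : K[X], s < t → β s = (1 + C θ * X) ^ (M s) * l := by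
    intro s
    by_cases hs : s < t
    · obtain ⟨l, hl⟩ := b2 s hs
      exact ⟨l, fun _ => hl⟩
    · exact ⟨0, fun h => absurd h hs⟩
  choose lam hlam using hlam
  choose kap hkap using hkap
  have h1X : ((1 + X : K[X])) = 1 + C 1 * X := by rw [C_1, one_mul]
  have hln : ∀ s, ((1 + X : K[X]) ^ (M s) * (1 + C θ * X) ^ (M s)).natDegree = 2 * M s := by
    intro s
    rw [h1X, natDegree_mul (lin_ne _) (lin_ne _), natDegree_lin one_ne_zero, natDegree_lin hθ.1]
    ring
  have hl0 : ∀ s < q, ∀ m, 2 * δ ≤ s + 3 * M s + m → (lam s).coeff m = 0 := by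
    intro s hs m hm
    have h6 : 2 * δ - s - M s ≤ 2 * M s + m := by omega
    refine coeff_zero_of_dvd (hln s) ?_ ?_ h6
    · rw [h1X]
      exact mul_ne_zero (lin_ne _) (lin_ne _)
    · intro m hm
      rw [← hlam s hs]
      exact a1 s hs m (by simp only [M] at hm; omega)
  have hk0 : ∀ s < t, ∀ m, 2 * δ ≤ s + 2 * M s + m → (kap s).coeff m = 0 := by
    intro s hs m hm
    have h6 : 2 * δ - s - M s ≤ M s + m := by omega
    refine coeff_zero_of_dvd (natDegree_lin hθ.1 _) (lin_ne _) ?_ h6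
    intro m hm
    rw [← hkap s hs]
    exact b1 s hs m (by simp only [M] at hm; omega)
  let x : S := (fun s => ⟨lam s, by
      rw [mem_degreeLT, degree_lt_iff_coeff_zero]
      intro m hm
      exact hl0 s s.2 m (by simp only [Nl] at hm; omega)⟩,
    fun s => ⟨kap s, by
      rw [mem_degreeLT, degree_lt_iff_coeff_zero]
      intro m hm
      exact hk0 s s.2 m (by simp only [Nk] at hm; omega)⟩)
  have hx : x = 0 := by
    apply hθ'
    rintro ⟨⟨i, hi⟩, ⟨j, hj⟩⟩
    by_cases hd : i + j < δ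
    · rw [hΨ x θ lam kap (fun _ => rfl) (fun _ => rfl) i j hi hj hd, sub_eq_zero]
      have h4 := hij i j hi hj hd
      rw [Finset.sum_congr (g := fun s => (-1) ^ s * ((i + j - s).choose (i - s) : K) *
        ((1 + X) ^ (M s) * (1 + C θ * X) ^ (M s) * lam s).coeff (i + j - s)) rfl ?_] at h4
      · rw [h4]
        refine Finset.sum_congr rfl fun s hs => ?_
        rw [Finset.mem_range] at hs
        rw [hkap s (by omega)]
      · intro s hs
        rw [Finset.mem_range] at hs
        rw [hlam s (by omega)]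
    · have e1 : Ψ (⟨i, hi⟩, ⟨j, hj⟩) = 0 := by
        simp only [Ψ]
        rw [if_neg hd]
      rw [e1, LinearMap.zero_apply, eval_zero]
  constructor
  · intro s hs
    have h5 : (x.1 ⟨s, hs⟩ : K[X]) = 0 := by
      rw [hx]
      rfl
    rw [hlam s hs, show lam s = 0 from h5, mul_zero]
  · intro s hs
    have h5 : (x.2 ⟨s, hs⟩ : K[X]) = 0 := by
      rw [hx]
      rfl
    rw [hkap s hs, show kap s = 0 from h5, mul_zero]

end Pool.Agent.SplG
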