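import Pool.Agent.SplG.Ind
import Pool.Agent.SplD.DiscB

/-!
# Triangulated discs

The motions of a disc extended by `0` are motions of the sphere obtained by a cone over the boundary.
-/

set_option autoImplicit false
set_option linter.unusedSectionVars false
set_option linter.unusedDecidableInType false
set_option linter.unusedFintypeInType false

namespace Pool.Agent.SplG

open Finset Pool.Agent.Spl1 Pool.Agent.Spl2 Pool.Agent.SplD

variable {V : Type*} [Fintype V] [DecidableEq V]

/-- extension of the position of the disc -/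
def po (p : V × Fin 2 → ℝ) (c : Fin 2 → ℝ) : Option V × Fin 2 → ℝ :=
  fun z => match z.1 with
    | none => c z.2
    | some v => p (v, z.2)

/-- extension of a motion by `0` -/
noncomputable def mo (μ : V → MvPolynomial (Fin 3) ℝ) : Option V → MvPolynomial (Fin 3) ℝ :=
  fun v => match v with
    | none => 0
    | some v => μ v

theorem dl_po (p : V × Fin 2 → ℝ) (c : Fin 2 → ℝ) (v : V) : dl (po p c) (some v) = dl p v := rfl

theorem adp_po (p : V × Fin 2 → ℝ) (c : Fin 2 → ℝ) (u v : V) :
    adp (po p c) (some u) (some v) = adp p u v := rfl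

theorem mo_mem {T : Finset (Finset V)} (h : Good T (intV T)) {F : Finset (Option V)}
    (hF : ∀ v ∈ intV T, some v ∉ F) {k δ : ℕ} {τ : Option V → ℕ}
    (p : V × Fin 2 → ℝ) (c : Fin 2 → ℝ) {μ : V → MvPolynomial (Fin 3) ℝ}
    (hμ : μ ∈ Sol k δ (fun v => τ (some v)) p (intE T) (intV T)) :
    mo μ ∈ Sol k δ τ (po p c) (edges (cone T)) (vs (cone T) \ F) := by
  have hz : ∀ v, v ∉ intV T → μ v = 0 := hμ.2.1
  refine ⟨?_, ?_, ?_⟩
  · intro v
    cases v with
    | none => exact MvPolynomial.isHomogeneous_zero _ _ _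
    | some v => exact hμ.1 v
  · intro v hv
    cases v with
    | none => rfl
    | some v =>
      apply hz v
      intro hvI
      apply hv
      rw [mem_sdiff]
      exact ⟨some_mem_vs (intV_sub h hvI), hF v hvI⟩
  · intro u v huv he i j hij hi hj
    cases u with
    | none =>
      cases v with
      | none => exact absurd rfl huv
      | some v =>
        have h1 := none_edge.1 he
        rw [bdv_iff h] at h1
        have h2 : mo μ (some v) = 0 := hz v h1
        have h3 : mo μ none = 0 := rfl
        rw [h2, h3, sub_zero, map_zero, MvPolynomial.coeff_zero]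
    | some u =>
      cases v with
      | none =>
        rw [pair_comm] at he
        have h1 := none_edge.1 he
        rw [bdv_iff h] at h1
        have h2 : mo μ (some u) = 0 := hz u h1
        have h3 : mo μ none = 0 := rfl
        rw [h2, h3, sub_zero, map_zero, MvPolynomial.coeff_zero]
      | some v =>
        have huv' : u ≠ v := fun h4 => huv (by rw [h4])
        rw [← mp_pair, mp_edge] at he
        by_cases h4 : ({u, v} : Finset V) ∈ intE T
        · exact hμ.2.2 u v huv' h4 i j hij hi hj
        · have hne : ∀ w ∈ ({u, v} : Finset V), w ∉ intV T := by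
            intro w hw hwI
            apply h4
            unfold intE
            rw [mem_filter]
            refine ⟨he, ?_⟩
            unfold intV at hwI
            rw [mem_filter] at hwI
            exact hwI.2 _ he hw
          have h5 : mo μ (some u) = 0 := hz u (hne u (by simp))
          have h6 : mo μ (some v) = 0 := hz v (hne v (by simp))
          rw [h5, h6, sub_zero, map_zero, MvPolynomial.coeff_zero]

/-- fixing the position of the new vertex in a polynomial -/
theorem fix_none {Q : MvPolynomial (Option V × Fin 2) ℝ} (hQ : Q ≠ 0) :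
    ∃ (c : Fin 2 → ℝ) (Q' : MvPolynomial (V × Fin 2) ℝ), Q' ≠ 0 ∧
      ∀ p : V × Fin 2 → ℝ, MvPolynomial.eval p Q' = MvPolynomial.eval (po p c) Q := by
  obtain ⟨p₀, hp₀⟩ : ∃ p : Option V × Fin 2 → ℝ, MvPolynomial.eval p Q ≠ 0 := by
    by_contra hcon
    push Not at hcon
    exact hQ (MvPolynomial.funext fun x => by rw [hcon x, map_zero])
  let c : Fin 2 → ℝ := fun i => p₀ (none, i)
  let g : Option V × Fin 2 → MvPolynomial (V × Fin 2) ℝ := fun z => match z.1 with
    | none => MvPolynomial.C (c z.2)
    | some v => MvPolynomial.X (v, z.2)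
  have key : ∀ p : V × Fin 2 → ℝ, MvPolynomial.eval p (MvPolynomial.aeval g Q) =
      MvPolynomial.eval (po p c) Q := by
    intro p
    have h1 : (MvPolynomial.eval p).comp
        ((MvPolynomial.aeval g : MvPolynomial (Option V × Fin 2) ℝ →ₐ[ℝ] _) :
          MvPolynomial (Option V × Fin 2) ℝ →+* MvPolynomial (V × Fin 2) ℝ) =
        MvPolynomial.eval (po p c) := by
      apply MvPolynomial.ringHom_ext
      · intro a
        simp
      · rintro ⟨v, i⟩
        cases v with
        | none => simp [g, po]
        | some v => simp [g, po]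
    exact RingHom.congr_fun h1 Q
  refine ⟨c, MvPolynomial.aeval g Q, ?_, key⟩
  intro h0
  have h1 := key (fun z => p₀ (some z.1, z.2))
  rw [h0, map_zero] at h1
  have h2 : po (fun z : V × Fin 2 => p₀ (some z.1, z.2)) c = p₀ := by
    funext z
    obtain ⟨v, i⟩ := z
    cases v with
    | none => rfl
    | some v => rfl
  rw [h2] at h1
  exact hp₀ h1.symm

/-- **generic triviality for discs** -/
theorem disc_z {T : Finset (Finset V)} (h : Good T (intV T)) (hd : DConn T) (hne : T.Nonempty)
    {q δ t : ℕ} (hδ : 1 ≤ δ) (h1 : 2 * δ ≤ 3 * q) (h2 : 3 * q ≤ 2 * δ + 3)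
    (ht : t = δ / 2 + 1) (hA : HA (Option V) q δ) (hB : HB (Option V) q δ) :
    ∃ τ : V → ℕ, (∀ v, τ v = t ∨ τ v = q) ∧ ∃ Q : MvPolynomial (V × Fin 2) ℝ, Q ≠ 0 ∧
      ∀ p : V × Fin 2 → ℝ, MvPolynomial.eval p Q ≠ 0 →
        ∀ μ ∈ Sol (2 * δ - 1) δ τ p (intE T) (intV T), ∀ v ∈ intV T, dl p v ^ τ v ∣ μ v := by
  obtain ⟨e, he⟩ := bd_ne h hne
  have hF : cn e ∈ cone T := cn_mem_lft.2 he
  obtain ⟨Q, hQ, hQ'⟩ := gz_sph hδ h1 h2 ht hA hB _ (cone T) rfl (cone_sph h hd hne) _ hF
  obtain ⟨c, Q', hQ'0, hQ'1⟩ := fix_none hQ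
  refine ⟨fun v => tau (cone T) (cn e) q t (some v), ?_, Q', hQ'0, ?_⟩
  · intro v
    simp only [tau]
    split_ifs
    · exact Or.inl rfl
    · exact Or.inr rfl
  · intro p hp μ hμ v hv
    have hFv : ∀ v ∈ intV T, some v ∉ cn e := by
      intro v hv h3
      rw [some_mem_cn] at h3
      exact (bdv_iff h).1 (mem_bdv.2 ⟨e, he, h3⟩) hv
    rw [hQ'1] at hp
    have h3 := hQ' (po p c) hp _ (mo_mem h hFv p c hμ) (some v)
      (mem_sdiff.2 ⟨some_mem_vs (intV_sub h hv), hFv v hv⟩)
    exact h3

end Pool.Agent.SplG
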