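import Mathlib

/-!
# Polynomials with few terms

`few_terms`: over a field of characteristic 0 a polynomial with at most `n` terms which is divisible by
`(1 + X) ^ n` is `0`.  (The operator `X d/dX - m` kills the term `X ^ m` and lowers the order at `-1` by one.)
-/

set_option autoImplicit false

namespace Pool.Agent.SplG

open Polynomial

variable {K : Type*} [Field K] [CharZero K]

omit [CharZero K] in
theorem dvd_euler {n : ℕ} {f : K[X]} (h : (1 + X : K[X]) ^ (n + 1) ∣ f) (m : K) :
    (1 + X : K[X]) ^ n ∣ X * derivative f - C m * f := by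
  obtain ⟨g, rfl⟩ := h
  have h1 : derivative ((1 + X : K[X]) ^ (n + 1) * g) =
      (1 + X) ^ n * ((n + 1 : K[X]) * g + (1 + X) * derivative g) := by
    rw [derivative_mul, derivative_pow]
    simp
    ring
  rw [h1]
  refine ⟨X * ((n + 1 : K[X]) * g + (1 + X) * derivative g) - C m * ((1 + X) * g), ?_⟩
  ring

omit [CharZero K] in
theorem coeff_euler (f : K[X]) (m : K) (i : ℕ) :
    (X * derivative f - C m * f).coeff i = ((i : K) - m) * f.coeff i := by
  rw [coeff_sub, coeff_C_mul]
  cases i with
  | zero => simp
  | succ i =>
    rw [coeff_X_mul, coeff_derivative]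
    push_cast
    ring

theorem few_terms : ∀ (n : ℕ) (f : K[X]), (1 + X : K[X]) ^ n ∣ f → f.support.card ≤ n → f = 0 := by
  intro n
  induction n with
  | zero =>
    intro f _ h
    rw [Nat.le_zero, Finset.card_eq_zero, support_eq_empty] at h
    exact h
  | succ n ih =>
    intro f hd hc
    by_contra hf
    obtain ⟨m, hm⟩ := (support_nonempty.2 hf)
    have h1 : (X * derivative f - C (m : K) * f).support ⊆ f.support.erase m := by
      intro i hi
      rw [mem_support_iff, coeff_euler] at hi
      rw [Finset.mem_erase, mem_support_iff]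
      refine ⟨?_, right_ne_zero_of_mul hi⟩
      rintro rfl
      simp at hi
    have h2 := ih _ (dvd_euler hd (m : K)) (by
      refine (Finset.card_le_card h1).trans ?_
      rw [Finset.card_erase_of_mem hm]
      omega)
    have h3 : ∀ i, i ≠ m → f.coeff i = 0 := by
      intro i hi
      have h4 := coeff_euler f (m : K) i
      rw [h2, coeff_zero] at h4
      rcases mul_eq_zero.1 h4.symm with h5 | h5
      · exact absurd (Nat.cast_injective (sub_eq_zero.1 h5)) hi
      · exact h5
    have h4 : f = C (f.coeff m) * X ^ m := by
      ext i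
      rw [coeff_C_mul, coeff_X_pow]
      by_cases h : i = m
      · rw [if_pos h, h, mul_one]
      · rw [if_neg h, mul_zero, h3 i h]
    have h5 : (1 + X : K[X]) ∣ f := (dvd_pow_self _ (Nat.succ_ne_zero n)).trans hd
    have h6 : f.eval (-1) = 0 := by
      obtain ⟨g, hg⟩ := h5
      rw [hg]
      simp
    rw [h4] at h6
    simp at h6
    exact (mem_support_iff.1 hm) h6

end Pool.Agent.SplG
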