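import Pool.Agent.SplG.TTwo
import Pool.Agent.Spl2.BrSemi

/-!
# Generic triviality of the motions

`GZ k δ τ E I`: for generic real positions `p` every `μ ∈ Sol k δ τ p E I` is trivial (`L_v ^ τ v` divides `μ v`).
`gz_of_special`: one position over one field is enough.  `gz_t1`: the configuration `T1`.  `gz_k4`: a single vertex of degree `3`.
-/

set_option autoImplicit false
set_option linter.unusedSectionVars false
set_option linter.unusedDecidableInType false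
set_option linter.unusedFintypeInType false

namespace Pool.Agent.SplG

open MvPolynomial Pool.Agent.Spl2

variable {V : Type*} [Fintype V] [DecidableEq V] {K : Type*} [Field K]

/-- generic triviality of the motions -/
def GZ (k δ : ℕ) (τ : V → ℕ) (E : Finset (Finset V)) (I : Finset V) : Prop :=
  ∃ Q : MvPolynomial (V × Fin 2) ℝ, Q ≠ 0 ∧ ∀ p : V × Fin 2 → ℝ, eval p Q ≠ 0 →
    ∀ μ ∈ Sol k δ τ p E I, ∀ v ∈ I, dl p v ^ τ v ∣ μ v

theorem gz_of_special {k δ : ℕ} {τ : V → ℕ} {E : Finset (Finset V)} {I : Finset V}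
    (p₀ : V × Fin 2 → K) (hτ : ∀ v ∈ I, τ v ≤ k)
    (h : ∀ μ ∈ Sol k δ τ p₀ E I, ∀ v ∈ I, dl p₀ v ^ τ v ∣ μ v) : GZ k δ τ E I := by
  obtain ⟨Q, hQ, hQ'⟩ := sol_semicont k δ τ p₀ E I
  refine ⟨Q, hQ, fun p hp => ?_⟩
  have h1 := hQ' p hp
  rw [finrank_sol_of_dvd k δ τ p₀ E I hτ h, ← brt_rank (K := ℝ) k τ I] at h1
  have i1 := brt_fd k δ τ p E I
  have i2 : ∀ m : ℕ, Module.Finite ℝ (homogeneousSubmodule (Fin 3) ℝ m) := fun m => brt_fin m
  have h2 := LinearMap.finrank_le_finrank_of_injective (brS_inj k δ τ p E I hτ)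
  have h3 := (LinearMap.injective_iff_surjective_of_finrank_eq_finrank
    (le_antisymm h2 h1)).1 (brS_inj k δ τ p E I hτ)
  intro μ hμ v hv
  obtain ⟨g, hg⟩ := h3 ⟨μ, hμ⟩
  have h4 : brT k τ p I g = μ := congrArg Subtype.val hg
  have h5 : brT k τ p I g v = dl p v ^ τ v * (g ⟨v, hv⟩ : MvPolynomial (Fin 3) ℝ) := dif_pos hv
  rw [← h4, h5]
  exact dvd_mul_right _ _

/-- the edge condition for a motion -/
theorem sol_edge {k δ : ℕ} {τ : V → ℕ} {p : V × Fin 2 → K} {E : Finset (Finset V)} {I : Finset V}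
    {μ : V → MvPolynomial (Fin 3) K} (hμ : μ ∈ Sol k δ τ p E I) {u v : V} (huv : u ≠ v)
    (he : ({u, v} : Finset V) ∈ E) (hp : p (u, 1) ≠ p (v, 1)) :
    μ u - μ v ∈ eI p u v δ (τ u) (τ v) :=
  (edge_mem hp ((hμ.1 u).sub (hμ.1 v))).1 (hμ.2.2 u v huv he)

theorem sol_pin {k δ : ℕ} {τ : V → ℕ} {p : V × Fin 2 → K} {E : Finset (Finset V)} {I : Finset V}
    {μ : V → MvPolynomial (Fin 3) K} (hμ : μ ∈ Sol k δ τ p E I) {u v : V} (huv : u ≠ v)
    (he : ({u, v} : Finset V) ∈ E) (hp : p (u, 1) ≠ p (v, 1)) (hv : v ∉ I) :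
    μ u ∈ eI p u v δ (τ u) (τ v) := by
  have h := sol_edge hμ huv he hp
  rwa [hμ.2.1 v hv, sub_zero] at h

theorem t1_special [CharZero K] {q δ t : ℕ} (hδ : 1 ≤ δ) (h1 : 2 * δ ≤ 3 * q)
    (h2 : 3 * q ≤ 2 * δ + 3) (ht : t = δ / 2 + 1) :
    ∃ θ : K, ∀ (p : V × Fin 2 → K) (a b c x y : V), a ≠ x → b ≠ x → c ≠ x → a ≠ y → b ≠ y →
      c ≠ y → x ≠ y → p (a, 0) = 0 → p (a, 1) = 1 → p (b, 0) = 0 → p (b, 1) = 0 →
      p (c, 0) = 0 → p (c, 1) = θ → p (x, 0) = 1 → p (x, 1) = 2 → p (y, 0) = 1 → p (y, 1) = 3 →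
      ∀ (τ : V → ℕ) (E : Finset (Finset V)), τ a = q → τ b = q → τ c = q → τ x = q → τ y = t →
      {x, a} ∈ E → {x, b} ∈ E → {x, c} ∈ E → {y, b} ∈ E → {y, c} ∈ E → {x, y} ∈ E →
      ∀ μ ∈ Sol (2 * δ - 1) δ τ p E {x, y}, dl p x ^ q ∣ μ x ∧ dl p y ^ t ∣ μ y := by
  classical
  obtain ⟨θ, hθ, key⟩ := exists_theta (K := K) h1 h2 ht {2, 3}
  refine ⟨θ, ?_⟩
  intro p a b c x y nax nbx ncx nay nby ncy nxy pa0 pa1 pb0 pb1 pc0 pc1 px0 px1 py0 py1 τ E
    ta tb tc tx ty exa exb exc eyb eyc exy μ hμ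
  rw [Finset.mem_insert, Finset.mem_singleton, not_or] at hθ
  have na : a ∉ ({x, y} : Finset V) := by simp [nax, nay]
  have nb : b ∉ ({x, y} : Finset V) := by simp [nbx, nby]
  have nc : c ∉ ({x, y} : Finset V) := by simp [ncx, ncy]
  have cxa := sol_pin hμ nax.symm exa (by rw [px1, pa1]; norm_num) na
  have cxb := sol_pin hμ nbx.symm exb (by rw [px1, pb1]; norm_num) nb
  have cxc := sol_pin hμ ncx.symm exc (by rw [px1, pc1]; exact Ne.symm hθ.1) nc
  have cyb := sol_pin hμ nby.symm eyb (by rw [py1, pb1]; norm_num) nb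
  have cyc := sol_pin hμ ncy.symm eyc (by rw [py1, pc1]; exact Ne.symm hθ.2) nc
  have cxy := sol_edge hμ nxy exy (by rw [px1, py1]; norm_num)
  rw [tx, ta] at cxa
  rw [tx, tb] at cxb
  rw [tx, tc] at cxc
  rw [ty, tb] at cyb
  rw [ty, tc] at cyc
  rw [tx, ty] at cxy
  have py1' : p (y, 1) = 2 + 1 := by rw [py1]; norm_num
  have hx := hμ.1 x
  have hy := hμ.1 y
  have h3 := key (fun s => (de K (sg 2 (μ x))).coeff s) (fun s => (de K (sg (2 + 1) (μ y))).coeff s)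
    (fun s hs m hm => cond_b px0 px1 pb0 pb1 hx cxb s hs m (by omega))
    (fun s hs => by
      have h4 := cond_dvd px0 px1 pa0 cxa s hs
      rwa [pa1, Polynomial.C_1, one_mul] at h4)
    (fun s hs => by
      have h4 := cond_dvd px0 px1 pc0 cxc s hs
      rwa [pc1] at h4)
    (fun s hs m hm => cond_b py0 py1' pb0 pb1 hy cyb s hs m (by omega))
    (fun s hs => by
      have h4 := cond_dvd py0 py1' pc0 cyc s hs
      rwa [pc1] at h4)
    (fun i j hi hj hij => cond_xy px0 px1 py0 py1' cxy i j hi hj hij)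
  exact ⟨dvd_of_sg px0 px1 hx h3.1, dvd_of_sg py0 py1' hy h3.2⟩

theorem gz_t1 {q δ t : ℕ} (hδ : 1 ≤ δ) (h1 : 2 * δ ≤ 3 * q)
    (h2 : 3 * q ≤ 2 * δ + 3) (ht : t = δ / 2 + 1) {a b c x y : V} (nab : a ≠ b) (nac : a ≠ c)
    (nbc : b ≠ c) (nax : a ≠ x) (nbx : b ≠ x) (ncx : c ≠ x) (nay : a ≠ y) (nby : b ≠ y)
    (ncy : c ≠ y) (nxy : x ≠ y) (τ : V → ℕ) (E : Finset (Finset V)) (ta : τ a = q) (tb : τ b = q)
    (tc : τ c = q) (tx : τ x = q) (ty : τ y = t) (exa : {x, a} ∈ E) (exb : {x, b} ∈ E)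
    (exc : {x, c} ∈ E) (eyb : {y, b} ∈ E) (eyc : {y, c} ∈ E) (exy : {x, y} ∈ E) :
    GZ (2 * δ - 1) δ τ E {x, y} := by
  obtain ⟨θ, hθ⟩ := t1_special (K := ℚ) (V := V) hδ h1 h2 ht
  let p : V × Fin 2 → ℚ := fun z => (if z.1 = a then ![0, 1] else if z.1 = b then ![0, 0] else
    if z.1 = c then ![0, θ] else if z.1 = x then ![1, 2] else ![1, 3]) z.2
  have key := hθ p a b c x y nax nbx ncx nay nby ncy nxy (by simp [p]) (by simp [p])
    (by simp [p, nab.symm]) (by simp [p, nab.symm]) (by simp [p, nac.symm, nbc.symm])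
    (by simp [p, nac.symm, nbc.symm]) (by simp [p, nax.symm, nbx.symm, ncx.symm])
    (by simp [p, nax.symm, nbx.symm, ncx.symm])
    (by simp [p, nay.symm, nby.symm, ncy.symm, nxy.symm])
    (by simp [p, nay.symm, nby.symm, ncy.symm, nxy.symm]) τ E ta tb tc tx ty exa exb exc eyb eyc exy
  apply gz_of_special p
  · intro v hv
    rw [Finset.mem_insert, Finset.mem_singleton] at hv
    rcases hv with rfl | rfl
    · omega
    · omega
  · intro μ hμ v hv
    rw [Finset.mem_insert, Finset.mem_singleton] at hv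
    have h3 := key μ hμ
    rcases hv with rfl | rfl
    · rw [tx]
      exact h3.1
    · rw [ty]
      exact h3.2

/-- a vertex of degree `3` with pinned neighbours -/
theorem gz_k4 {q δ t : ℕ} (hδ : 1 ≤ δ) (h1 : 2 * δ ≤ 3 * q) (ht : t = δ / 2 + 1) {a b c y : V}
    (nab : a ≠ b) (nac : a ≠ c) (nbc : b ≠ c) (nay : a ≠ y) (nby : b ≠ y) (ncy : c ≠ y)
    (τ : V → ℕ) (E : Finset (Finset V)) (ta : τ a = q) (tb : τ b = q)
    (tc : τ c = q) (ty : τ y = t) (eya : {y, a} ∈ E) (eyb : {y, b} ∈ E) (eyc : {y, c} ∈ E) :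
    GZ (2 * δ - 1) δ τ E {y} := by
  let p : V × Fin 2 → ℚ := fun z => (if z.1 = a then ![0, 1] else if z.1 = b then ![0, 2] else
    if z.1 = c then ![0, 3] else ![1, 0]) z.2
  have pa0 : p (a, 0) = 0 := by simp [p]
  have pa1 : p (a, 1) = 1 := by simp [p]
  have pb0 : p (b, 0) = 0 := by simp [p, nab.symm]
  have pb1 : p (b, 1) = 2 := by simp [p, nab.symm]
  have pc0 : p (c, 0) = 0 := by simp [p, nac.symm, nbc.symm]
  have pc1 : p (c, 1) = 3 := by simp [p, nac.symm, nbc.symm]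
  have py0 : p (y, 0) = 1 := by simp [p, nay.symm, nby.symm, ncy.symm]
  have py1 : p (y, 1) = 0 := by simp [p, nay.symm, nby.symm, ncy.symm]
  apply gz_of_special p
  · intro v hv
    rw [Finset.mem_singleton] at hv
    subst hv
    omega
  · intro μ hμ v hv
    rw [Finset.mem_singleton] at hv
    subst hv
    have ca := sol_pin hμ nay.symm eya (by rw [py1, pa1]; norm_num) (by simpa using nay)
    have cb := sol_pin hμ nby.symm eyb (by rw [py1, pb1]; norm_num) (by simpa using nby)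
    have cc := sol_pin hμ ncy.symm eyc (by rw [py1, pc1]; norm_num) (by simpa using ncy)
    rw [ty, ta] at ca
    rw [ty, tb] at cb
    rw [ty, tc] at cc
    rw [ty]
    refine pin3 (by rw [py1, pa1]; norm_num) (by rw [py1, pb1]; norm_num)
      (by rw [py1, pc1]; norm_num) ?_ ?_ ?_ ?_ (hμ.1 v) (by omega) ca cb cc
    · unfold nc
      rw [pa0, pa1, pb0, pb1, py0, py1]
      norm_num
    · unfold nc
      rw [pc0, pc1, pb0, pb1, py0, py1]
      norm_num
    · unfold nc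
      rw [pa0, pa1, pc0, pc1, py0, py1]
      norm_num
    · intro s hs
      omega

end Pool.Agent.SplG
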