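import Pool.Agent.Spl2.BrTriv
import Pool.Agent.Spl2.BrC2

/-!
# The edge condition of `Sol` as an ideal membership

`eI p u v δ s t = (L_u, L_v)^δ + (L_u^s) + (L_v^t)`, `mI δ s t = (X 0, X 1)^δ + (X 0 ^ s) + (X 1 ^ t)` (as a monomial ideal).
-/

set_option autoImplicit false
set_option linter.unusedSectionVars false
set_option linter.unusedDecidableInType false
set_option linter.unusedFintypeInType false

namespace Pool.Agent.SplG

open MvPolynomial Pool.Agent.Spl2

variable {V : Type*} [Fintype V] [DecidableEq V] {K : Type*} [Field K]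

/-- the ideal of the edge `u v` -/
noncomputable def eI (p : V × Fin 2 → K) (u v : V) (δ s t : ℕ) : Ideal (MvPolynomial (Fin 3) K) :=
  Ideal.span {dl p u, dl p v} ^ δ ⊔ (Ideal.span {dl p u ^ s} ⊔ Ideal.span {dl p v ^ t})

/-- the exponents of the monomials in `(X a, X b)^δ + (X a ^ s) + (X b ^ t)` -/
def mS (a b : Fin 3) (δ s t : ℕ) : Set (Fin 3 →₀ ℕ) := {m | δ ≤ m a + m b ∨ s ≤ m a ∨ t ≤ m b}

/-- the ideal spanned by these monomials -/
noncomputable def mI (K : Type*) [Field K] (a b : Fin 3) (δ s t : ℕ) :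
    Ideal (MvPolynomial (Fin 3) K) :=
  Ideal.span ((fun m => monomial m (1 : K)) '' mS a b δ s t)

theorem mem_mI {a b : Fin 3} {δ s t : ℕ} {f : MvPolynomial (Fin 3) K} :
    f ∈ mI K a b δ s t ↔ ∀ m : Fin 3 →₀ ℕ, m a + m b < δ → m a < s → m b < t → coeff m f = 0 := by
  unfold mI
  rw [mem_ideal_span_monomial_image]
  constructor
  · intro h m h1 h2 h3
    by_contra h4
    obtain ⟨n, hn, hnm⟩ := h m (mem_support_iff.2 h4)
    have h5 := hnm a
    have h6 := hnm b
    rcases hn with hn | hn | hn <;> omega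
  · intro h m hm
    refine ⟨m, ?_, le_rfl⟩
    by_contra h1
    simp only [mS, Set.mem_ofPred_eq] at h1
    push Not at h1
    exact (mem_support_iff.1 hm) (h m h1.1 h1.2.1 h1.2.2)

theorem X_pow_mem {a b : Fin 3} {δ i j : ℕ} (hab : a ≠ b) (h : δ ≤ i + j) (s t : ℕ) :
    (X a : MvPolynomial (Fin 3) K) ^ i * X b ^ j ∈ mI K a b δ s t := by
  rw [mem_mI]
  intro m h1 _ _
  rw [X_pow_eq_monomial, X_pow_eq_monomial, monomial_mul, coeff_monomial, if_neg]
  rintro rfl
  simp only [Finsupp.add_apply, Finsupp.single_eq_same, Finsupp.single_apply, hab, hab.symm,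
    if_false] at h1
  omega

theorem pow_le_mI {a b : Fin 3} (hab : a ≠ b) (δ s t : ℕ) :
    (Ideal.span {(X a : MvPolynomial (Fin 3) K), X b}) ^ δ ≤ mI K a b δ s t := by
  have h0 : ∀ δ, (Ideal.span {(X a : MvPolynomial (Fin 3) K), X b}) ^ δ ≤
      Ideal.span {f | ∃ i j, i + j = δ ∧ f = (X a : MvPolynomial (Fin 3) K) ^ i * X b ^ j} := by
    intro δ
    induction δ with
    | zero =>
      rw [pow_zero, Ideal.one_eq_top, top_le_iff, Ideal.eq_top_iff_one]
      exact Ideal.subset_span ⟨0, 0, rfl, by simp⟩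
    | succ n ih =>
      rw [pow_succ]
      refine (Ideal.mul_mono_left ih).trans ?_
      rw [Ideal.span_mul_span', Ideal.span_le]
      rintro _ ⟨_, ⟨i, j, hij, rfl⟩, g, hg, rfl⟩
      simp only [Set.mem_insert_iff, Set.mem_singleton_iff] at hg
      rcases hg with rfl | rfl
      · exact Ideal.subset_span ⟨i + 1, j, by omega, by simp only; ring⟩
      · exact Ideal.subset_span ⟨i, j + 1, by omega, by simp only; ring⟩
  refine (h0 δ).trans ?_
  rw [Ideal.span_le]
  rintro _ ⟨i, j, hij, rfl⟩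
  exact X_pow_mem hab hij.ge s t

theorem X_mem_left {a b : Fin 3} (δ s t : ℕ) :
    (X a : MvPolynomial (Fin 3) K) ^ s ∈ mI K a b δ s t := by
  rw [mem_mI]
  intro m _ h2 _
  rw [X_pow_eq_monomial, coeff_monomial, if_neg]
  rintro rfl
  simp at h2

theorem X_mem_right {a b : Fin 3} (δ s t : ℕ) :
    (X b : MvPolynomial (Fin 3) K) ^ t ∈ mI K a b δ s t := by
  rw [mem_mI]
  intro m _ _ h2
  rw [X_pow_eq_monomial, coeff_monomial, if_neg]
  rintro rfl
  simp at h2

/-- a ring homomorphism which maps `L_u`, `L_v` to multiples of `X a`, `X b` -/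
theorem map_eI {p : V × Fin 2 → K} {u v : V} {a b : Fin 3} (hab : a ≠ b) {δ s t : ℕ}
    (φ : MvPolynomial (Fin 3) K →+* MvPolynomial (Fin 3) K)
    (hu : X a ∣ φ (dl p u)) (hv : X b ∣ φ (dl p v)) {f : MvPolynomial (Fin 3) K}
    (hf : f ∈ eI p u v δ s t) : φ f ∈ mI K a b δ s t := by
  have h1 : φ f ∈ (eI p u v δ s t).map φ := Ideal.mem_map_of_mem φ hf
  have h2 : (eI p u v δ s t).map φ ≤ mI K a b δ s t := by
    unfold eI
    rw [Ideal.map_sup, Ideal.map_sup, Ideal.map_pow]
    refine sup_le ?_ (sup_le ?_ ?_)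
    · refine le_trans (Ideal.pow_right_mono ?_ δ) (pow_le_mI hab δ s t)
      rw [Ideal.map_span, Ideal.span_le]
      rintro _ ⟨g, hg, rfl⟩
      simp only [Set.mem_insert_iff, Set.mem_singleton_iff] at hg
      rcases hg with rfl | rfl
      · exact Ideal.mem_of_dvd _ hu (Ideal.subset_span (by simp))
      · exact Ideal.mem_of_dvd _ hv (Ideal.subset_span (by simp))
    · rw [Ideal.map_span, Ideal.span_le]
      rintro _ ⟨g, hg, rfl⟩
      rw [Set.mem_singleton_iff] at hg
      subst hg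
      rw [map_pow]
      exact Ideal.mem_of_dvd _ (pow_dvd_pow_of_dvd hu s) (X_mem_left δ s t)
    · rw [Ideal.map_span, Ideal.span_le]
      rintro _ ⟨g, hg, rfl⟩
      rw [Set.mem_singleton_iff] at hg
      subst hg
      rw [map_pow]
      exact Ideal.mem_of_dvd _ (pow_dvd_pow_of_dvd hv t) (X_mem_right δ s t)
  exact h2 h1

/-- the inverse of `adp` -/
noncomputable def adi (p : V × Fin 2 → K) (u v : V) :
    MvPolynomial (Fin 3) K →ₐ[K] MvPolynomial (Fin 3) K :=
  aeval ![C (p (u, 1) - p (v, 1))⁻¹ * dl p u, C (p (u, 1) - p (v, 1))⁻¹ * dl p v,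
    C (p (u, 1) - p (v, 1))⁻¹ * X 0]

theorem adi_adp {p : V × Fin 2 → K} {u v : V} (h : p (u, 1) ≠ p (v, 1))
    (f : MvPolynomial (Fin 3) K) : adi p u v (adp p u v f) = f := by
  have hd : p (u, 1) - p (v, 1) ≠ 0 := sub_ne_zero.2 h
  have hC : (C (p (u, 1) - p (v, 1))⁻¹ : MvPolynomial (Fin 3) K) * C (p (u, 1) - p (v, 1)) = 1 := by
    rw [← C_mul, inv_mul_cancel₀ hd, C_1]
  have h1 : (adi p u v).comp (adp p u v) = AlgHom.id K _ := by
    apply MvPolynomial.algHom_ext
    intro i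
    fin_cases i
    · simp only [adi, adp, AlgHom.comp_apply, aeval_X, Fin.zero_eta, Matrix.cons_val_zero,
        map_mul, algHom_C, algebraMap_eq, AlgHom.id_apply, Matrix.cons_val]
      linear_combination X 0 * hC
    · simp only [adi, adp, AlgHom.comp_apply, aeval_X, Fin.mk_one, Matrix.cons_val_zero,
        Matrix.cons_val_one, map_mul, map_sub, algHom_C, algebraMap_eq, AlgHom.id_apply,
        Matrix.cons_val, dl] at hC ⊢
      linear_combination X 1 * hC
    · simp only [adi, adp, AlgHom.comp_apply, aeval_X, Fin.reduceFinMk, Matrix.cons_val_zero,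
        Matrix.cons_val_one, map_mul, map_add, map_neg, map_sub, algHom_C, algebraMap_eq,
        AlgHom.id_apply, Matrix.cons_val, dl] at hC ⊢
      linear_combination X 2 * hC
  exact DFunLike.congr_fun h1 f

theorem mem_pow_of {u v : MvPolynomial (Fin 3) K} {i j δ : ℕ} (h : δ ≤ i + j) :
    u ^ i * v ^ j ∈ (Ideal.span {u, v}) ^ δ := by
  have h1 : u ^ i * v ^ j ∈ (Ideal.span {u, v}) ^ (i + j) := by
    rw [pow_add]
    exact Ideal.mul_mem_mul (Ideal.pow_mem_pow (Ideal.subset_span (by simp)) _)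
      (Ideal.pow_mem_pow (Ideal.subset_span (by simp)) _)
  exact Ideal.pow_le_pow_right h h1

theorem mem_eI_of_adp {p : V × Fin 2 → K} {u v : V} (h : p (u, 1) ≠ p (v, 1)) {δ s t : ℕ}
    {f : MvPolynomial (Fin 3) K} (hf : adp p u v f ∈ mI K 0 1 δ s t) : f ∈ eI p u v δ s t := by
  rw [← adi_adp h f]
  have h1 : adi p u v (adp p u v f) ∈ (mI K 0 1 δ s t).map (adi p u v) := Ideal.mem_map_of_mem _ hf
  have h2 : (mI K 0 1 δ s t).map (adi p u v) ≤ eI p u v δ s t := by
    unfold mI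
    rw [Ideal.map_span, Ideal.span_le]
    rintro _ ⟨_, ⟨m, hm, rfl⟩, rfl⟩
    have h3 : adi p u v (monomial m 1) = dl p u ^ (m 0) * dl p v ^ (m 1) *
        (C (p (u, 1) - p (v, 1))⁻¹ ^ (m 0) * C (p (u, 1) - p (v, 1))⁻¹ ^ (m 1) *
          (C (p (u, 1) - p (v, 1))⁻¹ * X 0) ^ (m 2)) := by
      unfold adi
      rw [aeval_monomial, Finsupp.prod_fintype _ _ (by simp), Fin.prod_univ_three, map_one]
      simp only [Matrix.cons_val_zero, Matrix.cons_val_one, Matrix.cons_val]
      ring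
    show adi p u v (monomial m 1) ∈ eI p u v δ s t
    rw [h3]
    apply Ideal.mul_mem_right
    unfold eI
    rcases hm with hm | hm | hm
    · exact Ideal.mem_sup_left (mem_pow_of hm)
    · apply Ideal.mem_sup_right
      apply Ideal.mem_sup_left
      apply Ideal.mul_mem_right
      exact Ideal.mem_span_singleton.2 (pow_dvd_pow _ hm)
    · apply Ideal.mem_sup_right
      apply Ideal.mem_sup_right
      apply Ideal.mul_mem_left
      exact Ideal.mem_span_singleton.2 (pow_dvd_pow _ hm)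
  exact h2 h1

theorem ex3_zero (i j l : ℕ) : ex3 i j l 0 = i := rfl

theorem ex3_one (i j l : ℕ) : ex3 i j l 1 = j := rfl

theorem ex3_two (i j l : ℕ) : ex3 i j l 2 = l := rfl

theorem eq_ex3 (m : Fin 3 →₀ ℕ) : m = ex3 (m 0) (m 1) (m 2) := by
  ext i
  fin_cases i <;> rfl

theorem degree_ex3 (i j l : ℕ) : (ex3 i j l).degree = i + j + l := by
  rw [Finsupp.degree_eq_sum, Fin.sum_univ_three]
  rfl

/-- the edge condition of `Sol` -/
theorem edge_mem {p : V × Fin 2 → K} {u v : V} (h : p (u, 1) ≠ p (v, 1)) {k δ s t : ℕ}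
    {f : MvPolynomial (Fin 3) K} (hf : f.IsHomogeneous k) :
    (∀ i j, i + j < δ → i < s → j < t → coeff (ex3 i j (k - i - j)) (adp p u v f) = 0) ↔
      f ∈ eI p u v δ s t := by
  have hg := adp_homog p u v k f hf
  constructor
  · intro h1
    apply mem_eI_of_adp h
    rw [mem_mI]
    intro m h2 h3 h4
    by_contra h5
    have h6 : m 0 + m 1 + m 2 = k := by
      have h7 := hg h5
      rw [← h7, Finsupp.weight_apply, Finsupp.sum_fintype _ _ (by simp), Fin.sum_univ_three]
      simp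
    have h7 := h1 (m 0) (m 1) h2 h3 h4
    rw [show k - m 0 - m 1 = m 2 by omega, ← eq_ex3] at h7
    exact h5 h7
  · intro h1 i j h2 h3 h4
    have h5 := map_eI (a := 0) (b := 1) (by decide) (adp p u v : _ →+* _)
      (by
        show X 0 ∣ adp p u v (dl p u)
        rw [adp_dl_left]
        exact dvd_mul_left _ _)
      (by
        show X 1 ∣ adp p u v (dl p v)
        rw [adp_dl_right]
        exact dvd_mul_left _ _) h1
    exact mem_mI.1 h5 _ h2 h3 h4

theorem eI_symm (p : V × Fin 2 → K) (u v : V) (δ s t : ℕ) : eI p v u δ t s = eI p u v δ s t := by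
  unfold eI
  rw [Set.pair_comm, sup_comm (Ideal.span {dl p v ^ t})]

theorem eI_mono {p : V × Fin 2 → K} {u v : V} {δ s t s' t' : ℕ} (hs : s' ≤ s) (ht : t' ≤ t) :
    eI p u v δ s t ≤ eI p u v δ s' t' := by
  unfold eI
  refine sup_le_sup_left (sup_le_sup ?_ ?_) _
  · rw [Ideal.span_singleton_le_span_singleton]
    exact pow_dvd_pow _ hs
  · rw [Ideal.span_singleton_le_span_singleton]
    exact pow_dvd_pow _ ht

theorem eI_of_dvd_left {p : V × Fin 2 → K} {u v : V} {δ s t : ℕ} {f : MvPolynomial (Fin 3) K}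
    (h : dl p u ^ s ∣ f) : f ∈ eI p u v δ s t :=
  Ideal.mem_sup_right (Ideal.mem_sup_left (Ideal.mem_span_singleton.2 h))

theorem eI_of_dvd_right {p : V × Fin 2 → K} {u v : V} {δ s t : ℕ} {f : MvPolynomial (Fin 3) K}
    (h : dl p v ^ t ∣ f) : f ∈ eI p u v δ s t :=
  Ideal.mem_sup_right (Ideal.mem_sup_right (Ideal.mem_span_singleton.2 h))

end Pool.Agent.SplG
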