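import Pool.Agent.SplD.Cut
import Pool.Agent.SplD.K4
import Pool.Agent.Spl2.SphOrdG

/-!
# Innermost separating triangles and vertices of degree three
-/

set_option autoImplicit false

namespace Pool.Agent.SplG

open Finset Pool.Agent.Spl1 Pool.Agent.Spl2 Pool.Agent.SplD

variable {V : Type*} [Fintype V] [DecidableEq V]

theorem tri_card {x y z : V} (hxy : x ≠ y) (hyz : y ≠ z) (hxz : x ≠ z) :
    ({x, y, z} : Finset V).card = 3 := Finset.card_eq_three.2 ⟨x, y, z, hxy, hxz, hyz, rfl⟩

/-- a non-facial 3-cycle bounds a region which avoids a given face -/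
theorem exists_region {T : Finset (Finset V)} (h : Sph T) {x y z : V} (hxy : x ≠ y) (hyz : y ≠ z)
    (hxz : x ≠ z) (e1 : ({x, y} : Finset V) ∈ edges T) (e2 : ({y, z} : Finset V) ∈ edges T)
    (e3 : ({x, z} : Finset V) ∈ edges T) (F : Finset V) :
    ∃ D ⊆ T, F ∉ D ∧ bdry D = bdry {{x, y, z}} := by
  have hC : ({{x, y}, {y, z}, {x, z}} : Finset (Finset V)) ⊆ edges T := by
    intro e he
    simp only [Finset.mem_insert, Finset.mem_singleton] at he
    rcases he with rfl | rfl | rfl
    · exact e1
    · exact e2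
    · exact e3
  obtain ⟨D, hD, hb⟩ := h.H1 _ hC (isCyc_triangle hxy hyz hxz)
  rw [← bdry_single hxy hyz hxz] at hb
  by_cases hF : F ∈ D
  · refine ⟨T \ D, Finset.sdiff_subset, ?_, ?_⟩
    · intro h'
      exact (Finset.mem_sdiff.1 h').2 hF
    · rw [h.bdry_compl hD, hb]
  · exact ⟨D, hD, hF, hb⟩

theorem bdry_single_inj {g g' : Finset V} (hg : g.card = 3) (hg' : g'.card = 3)
    (h : bdry ({g} : Finset (Finset V)) = bdry {g'}) : g = g' := by
  apply Finset.eq_of_subset_of_card_le _ (by rw [hg, hg'])
  intro x hx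
  obtain ⟨y, hy, hyx⟩ : ∃ y ∈ g, y ≠ x := Finset.exists_mem_ne (by omega) x
  have h1 : ({x, y} : Finset V) ∈ bdry {g} := by
    refine (mem_bdry_single hg).2 ⟨Finset.card_pair hyx.symm, ?_⟩
    intro z hz
    simp only [Finset.mem_insert, Finset.mem_singleton] at hz
    rcases hz with rfl | rfl
    · exact hx
    · exact hy
  rw [h] at h1
  exact ((mem_bdry_single hg').1 h1).2 (by simp)

/-- an innermost separating triangle -/
theorem exists_inner {T : Finset (Finset V)} (h : Sph T) (hF : ¬ Fac3 T) {F : Finset V}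
    (hFT : F ∈ T) : ∃ (g : Finset V) (A : Finset (Finset V)), A ⊆ T ∧ F ∉ A ∧ g.card = 3 ∧ g ∉ T ∧
      bdry A = bdry {g} ∧ Fac3 (insert g A) := by
  classical
  have hex : ∃ n, ∃ (g : Finset V) (A : Finset (Finset V)), A ⊆ T ∧ F ∉ A ∧ g.card = 3 ∧
      g ∉ T ∧ bdry A = bdry {g} ∧ A.card = n := by
    unfold Fac3 at hF
    push Not at hF
    obtain ⟨x, y, z, hxy, hyz, hxz, e1, e2, e3, hg⟩ := hF
    obtain ⟨D, hD, hFD, hb⟩ := exists_region h hxy hyz hxz e1 e2 e3 F
    exact ⟨_, {x, y, z}, D, hD, hFD, tri_card hxy hyz hxz, hg, hb, rfl⟩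
  obtain ⟨g, A, hA, hFA, hg, hgT, hb, hn⟩ := Nat.find_spec hex
  refine ⟨g, A, hA, hFA, hg, hgT, hb, ?_⟩
  have hmin : ∀ (g' : Finset V) (A' : Finset (Finset V)), A' ⊆ T → F ∉ A' → g'.card = 3 →
      g' ∉ T → bdry A' = bdry {g'} → A.card ≤ A'.card := by
    intro g' A' h1 h2 h3 h4 h5
    rw [hn]
    exact Nat.find_min' hex ⟨g', A', h1, h2, h3, h4, h5, rfl⟩
  have hP : Sph (insert g A) := cut h hA hg hgT hb
  have hE : edges (insert g A) = edges A := cut_edges hg hb
  intro x y z hxy hyz hxz e1 e2 e3
  by_contra hz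
  have hz3 := tri_card hxy hyz hxz
  obtain ⟨D, hD, hgD, hbD⟩ := exists_region hP hxy hyz hxz e1 e2 e3 g
  have hDA : D ⊆ A := by
    intro t ht
    rcases Finset.mem_insert.1 (hD ht) with h1 | h1
    · exact absurd (h1 ▸ ht) hgD
    · exact h1
  have hzT : ({x, y, z} : Finset V) ∉ T := by
    intro hzT
    have hzA : ({x, y, z} : Finset V) ∈ T \ A := by
      rw [Finset.mem_sdiff]
      exact ⟨hzT, fun h' => hz (Finset.mem_insert_of_mem h')⟩
    have key : ∀ u v : V, u ≠ v → u ∈ ({x, y, z} : Finset V) → v ∈ ({x, y, z} : Finset V) →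
        ({u, v} : Finset V) ∈ edges (insert g A) → ({u, v} : Finset V) ⊆ g := by
      intro u v huv hu hv he
      rw [hE] at he
      have h1 : ({u, v} : Finset V) ∈ edges (T \ A) := Spl2.edge_of_tri hzA huv hu hv
      have h2 := cut_common h hA he h1
      rw [hb] at h2
      exact ((mem_bdry_single hg).1 h2).2
    have h1 := key x y hxy (by simp) (by simp) e1
    have h2 := key y z hyz (by simp) (by simp) e2
    have hsub : ({x, y, z} : Finset V) ⊆ g := by
      intro w hw
      simp only [Finset.mem_insert, Finset.mem_singleton] at hw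
      rcases hw with rfl | rfl | rfl
      · exact h1 (by simp)
      · exact h1 (by simp)
      · exact h2 (by simp)
    have heq : ({x, y, z} : Finset V) = g :=
      Finset.eq_of_subset_of_card_le hsub (by rw [hg, hz3])
    exact hgT (heq ▸ hzT)
  have hle := hmin {x, y, z} D (hDA.trans hA) (fun h' => hFA (hDA h')) hz3 hzT hbD
  have hDA' : D = A := Finset.eq_of_subset_of_card_le hDA hle
  rw [hDA', hb] at hbD
  apply hz
  rw [← bdry_single_inj hg hz3 hbD]
  exact Finset.mem_insert_self _ _

/-- the star of a vertex of degree three -/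
theorem deg3 {T : Finset (Finset V)} (h : Sph T) {x b c : V} (hxb : x ≠ b) (hxc : x ≠ c)
    (hbc : b ≠ c) (hx : (star T x).card = 3) (hg : ({x, b, c} : Finset V) ∈ T) :
    ∃ a, a ≠ x ∧ a ≠ b ∧ a ≠ c ∧ star T x = {{x, b, c}, {x, a, b}, {x, a, c}} := by
  classical
  have hne : (star T x).Nonempty := Finset.card_pos.1 (by omega)
  have hI := h.link_irr hne
  have hC3 : (bdry (star T x)).card = 3 := by rw [h.star_of_bdry x, hx]
  have e0 : ({b, c} : Finset V) ∈ bdry (star T x) := h.mem_link2.2 ⟨hbc, hxb, hxc, hg⟩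
  have other : ∀ u ∈ ({b, c} : Finset V), ∀ w, ({b, c} : Finset V) = {u, w} → ∃ a, a ≠ u ∧
      a ≠ w ∧ ({u, a} : Finset V) ∈ bdry (star T x) := by
    intro u hu w hw
    obtain ⟨e, he, hue, hne'⟩ := exists_other hI.cyc e0 hu
    obtain ⟨p, q, hpq, rfl⟩ := Finset.card_eq_two.1 (hI.cyc.1 e he)
    simp only [Finset.mem_insert, Finset.mem_singleton] at hue
    rw [hw] at hne'
    rcases hue with rfl | rfl
    · exact ⟨q, hpq.symm, fun h' => hne' (by rw [h']), he⟩
    · refine ⟨p, hpq, fun h' => hne' ?_, ?_⟩
      · rw [h', Finset.pair_comm]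
      · rw [Finset.pair_comm]; exact he
  obtain ⟨a, hab, hac, ha⟩ := other b (by simp) c rfl
  obtain ⟨a', hac', hab', ha'⟩ := other c (by simp) b (Finset.pair_comm _ _)
  -- the three edges
  have n1 : ({b, c} : Finset V) ≠ {b, a} := by
    intro h'
    have : c ∈ ({b, a} : Finset V) := by rw [← h']; simp
    simp only [Finset.mem_insert, Finset.mem_singleton] at this
    rcases this with h1 | h1
    · exact hbc h1.symm
    · exact hac h1.symm
  have n2 : ({b, c} : Finset V) ≠ {c, a'} := by
    intro h'
    have : b ∈ ({c, a'} : Finset V) := by rw [← h']; simp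
    simp only [Finset.mem_insert, Finset.mem_singleton] at this
    rcases this with h1 | h1
    · exact hbc h1
    · exact hab' h1.symm
  have n3 : ({b, a} : Finset V) ≠ {c, a'} := by
    intro h'
    have : c ∈ ({b, a} : Finset V) := by rw [h']; simp
    simp only [Finset.mem_insert, Finset.mem_singleton] at this
    rcases this with h1 | h1
    · exact hbc h1.symm
    · exact hac h1.symm
  have hC : ({{b, c}, {b, a}, {c, a'}} : Finset (Finset V)) = bdry (star T x) := by
    apply Finset.eq_of_subset_of_card_le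
    · intro e he
      simp only [Finset.mem_insert, Finset.mem_singleton] at he
      rcases he with rfl | rfl | rfl
      · exact e0
      · exact ha
      · exact ha'
    · rw [hC3, Finset.card_eq_three.2 ⟨_, _, _, n1, n2, n3, rfl⟩]
  -- `a = a'`
  obtain ⟨e2, he2, hae2, hne2⟩ := exists_other hI.cyc ha (show a ∈ ({b, a} : Finset V) by simp)
  rw [← hC] at he2
  simp only [Finset.mem_insert, Finset.mem_singleton] at he2
  have haa : a = a' := by
    rcases he2 with rfl | rfl | rfl
    · simp only [Finset.mem_insert, Finset.mem_singleton] at hae2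
      rcases hae2 with h1 | h1
      · exact absurd h1 hab
      · exact absurd h1 hac
    · exact absurd rfl hne2
    · simp only [Finset.mem_insert, Finset.mem_singleton] at hae2
      rcases hae2 with h1 | h1
      · exact absurd h1 hac
      · exact h1
  subst haa
  obtain ⟨-, -, hxa, t1⟩ := h.mem_link2.1 ha
  obtain ⟨-, -, -, t2⟩ := h.mem_link2.1 ha'
  refine ⟨a, hxa.symm, hab, hac, ?_⟩
  have t1' : ({x, a, b} : Finset V) ∈ T := by rw [tri_swp]; exact t1
  have t2' : ({x, a, c} : Finset V) ∈ T := by rw [tri_swp]; exact t2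
  have m1 : ({x, b, c} : Finset V) ≠ {x, a, b} := by
    intro h'
    have : c ∈ ({x, a, b} : Finset V) := by rw [← h']; simp
    simp only [Finset.mem_insert, Finset.mem_singleton] at this
    rcases this with h1 | h1 | h1
    · exact hxc h1.symm
    · exact hac h1.symm
    · exact hbc h1.symm
  have m2 : ({x, b, c} : Finset V) ≠ {x, a, c} := by
    intro h'
    have : b ∈ ({x, a, c} : Finset V) := by rw [← h']; simp
    simp only [Finset.mem_insert, Finset.mem_singleton] at this
    rcases this with h1 | h1 | h1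
    · exact hxb h1.symm
    · exact hab h1.symm
    · exact hbc h1
  have m3 : ({x, a, b} : Finset V) ≠ {x, a, c} := by
    intro h'
    have : c ∈ ({x, a, b} : Finset V) := by rw [h']; simp
    simp only [Finset.mem_insert, Finset.mem_singleton] at this
    rcases this with h1 | h1 | h1
    · exact hxc h1.symm
    · exact hac h1.symm
    · exact hbc h1.symm
  symm
  apply Finset.eq_of_subset_of_card_le
  · intro t ht
    simp only [Finset.mem_insert, Finset.mem_singleton] at ht
    rcases ht with rfl | rfl | rfl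
    · exact mem_star.2 ⟨hg, by simp⟩
    · exact mem_star.2 ⟨t1', by simp⟩
    · exact mem_star.2 ⟨t2', by simp⟩
  · rw [hx, Finset.card_eq_three.2 ⟨_, _, _, m1, m2, m3, rfl⟩]

/-- two adjacent vertices of degree three: a tetrahedron, and every face meets the edge -/
theorem deg3_adj {T : Finset (Finset V)} (h : Sph T) {F : Finset V} (hF : F ∈ T) {x b : V}
    (hxb : x ≠ b) (he : ({x, b} : Finset V) ∈ edges T) (hx : (star T x).card = 3)
    (hb : (star T b).card = 3) (hxF : x ∉ F) (hbF : b ∉ F) : False := by
  classical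
  obtain ⟨-, t, ht, het⟩ := mem_edges.1 he
  obtain ⟨c, hc⟩ : (t \ {x, b}).Nonempty := by
    rw [← Finset.card_pos, Finset.card_sdiff_of_subset het, h.card3 t ht, Finset.card_pair hxb]
    norm_num
  rw [Finset.mem_sdiff, Finset.mem_insert, Finset.mem_singleton, not_or] at hc
  have htc : t = {x, b, c} := by
    rw [tri_eq (h.card3 t ht) (Finset.card_pair hxb) het hc.1 (by simp [hc.2.1, hc.2.2]),
      ← tri_rot]
  have hxc : x ≠ c := fun h' => hc.2.1 h'.symm
  have hbc : b ≠ c := fun h' => hc.2.2 h'.symm
  have hT : ({x, b, c} : Finset V) ∈ T := htc ▸ ht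
  obtain ⟨a, hax, hab, hac, hs⟩ := deg3 h hxb hxc hbc hx hT
  obtain ⟨a', hab', hax', hac', hs'⟩ := deg3 h hxb.symm hbc hxc hb
    (by rw [Finset.insert_comm]; exact hT)
  have t1 : ({x, a, b} : Finset V) ∈ star T x := by rw [hs]; simp
  have t2 : ({x, a, c} : Finset V) ∈ star T x := by rw [hs]; simp
  have t3 : ({b, a', c} : Finset V) ∈ star T b := by rw [hs']; simp
  have t1' : ({x, a, b} : Finset V) ∈ star T b :=
    mem_star.2 ⟨(mem_star.1 t1).1, by simp⟩
  have haa : a = a' := by
    rw [hs'] at t1'
    simp only [Finset.mem_insert, Finset.mem_singleton] at t1'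
    rcases t1' with h1 | h1 | h1
    · exfalso
      have : a ∈ ({b, x, c} : Finset V) := by rw [← h1]; simp
      simp only [Finset.mem_insert, Finset.mem_singleton] at this
      rcases this with h2 | h2 | h2
      · exact hab h2
      · exact hax h2
      · exact hac h2
    · have : a ∈ ({b, a', x} : Finset V) := by rw [← h1]; simp
      simp only [Finset.mem_insert, Finset.mem_singleton] at this
      rcases this with h2 | h2 | h2
      · exact absurd h2 hab
      · exact h2
      · exact absurd h2 hax
    · exfalso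
      have : x ∈ ({b, a', c} : Finset V) := by rw [← h1]; simp
      simp only [Finset.mem_insert, Finset.mem_singleton] at this
      rcases this with h2 | h2 | h2
      · exact hxb h2
      · exact hax' h2.symm
      · exact hxc h2
  subst haa
  have u1 := (mem_star.1 t1).1
  have u2 := (mem_star.1 t2).1
  have u3 := (mem_star.1 t3).1
  have u4 : ({a, b, c} : Finset V) ∈ T := by rw [Finset.insert_comm]; exact u3
  have h4 := h.k4 (v := x) (a := a) (b := b) (c := c) hax.symm hxb hxc hab hbc hac u1 hT u2 u4
  have n1 : ({x, b, c} : Finset V) ≠ {x, a, b} := by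
    intro h'
    have : c ∈ ({x, a, b} : Finset V) := by rw [← h']; simp
    simp only [Finset.mem_insert, Finset.mem_singleton] at this
    rcases this with h1 | h1 | h1
    · exact hxc h1.symm
    · exact hac h1.symm
    · exact hbc h1.symm
  have n2 : ({x, b, c} : Finset V) ≠ {x, a, c} := by
    intro h'
    have : b ∈ ({x, a, c} : Finset V) := by rw [← h']; simp
    simp only [Finset.mem_insert, Finset.mem_singleton] at this
    rcases this with h1 | h1 | h1
    · exact hxb h1.symm
    · exact hab h1.symm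
    · exact hbc h1
  have n3 : ({x, a, b} : Finset V) ≠ {x, a, c} := by
    intro h'
    have : c ∈ ({x, a, b} : Finset V) := by rw [h']; simp
    simp only [Finset.mem_insert, Finset.mem_singleton] at this
    rcases this with h1 | h1 | h1
    · exact hxc h1.symm
    · exact hac h1.symm
    · exact hbc h1.symm
  have hxn : x ∉ ({a, b, c} : Finset V) := by
    simp only [Finset.mem_insert, Finset.mem_singleton, not_or]
    exact ⟨hax.symm, hxb, hxc⟩
  have n4 : ∀ u v : V, ({a, b, c} : Finset V) ≠ {x, u, v} := by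
    intro u v h'
    apply hxn
    rw [h']; simp
  have hcard : ({{a, b, c}, {x, b, c}, {x, a, b}, {x, a, c}} : Finset (Finset V)).card = 4 := by
    rw [Finset.card_insert_of_notMem (by simp [n4]),
      Finset.card_eq_three.2 ⟨_, _, _, n1, n2, n3, rfl⟩]
  have hTT : ({{a, b, c}, {x, b, c}, {x, a, b}, {x, a, c}} : Finset (Finset V)) = T := by
    apply Finset.eq_of_subset_of_card_le
    · intro s hs
      simp only [Finset.mem_insert, Finset.mem_singleton] at hs
      rcases hs with rfl | rfl | rfl | rfl
      · exact u4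
      · exact hT
      · exact u1
      · exact u2
    · rw [hcard, h4]
  rw [← hTT] at hF
  simp only [Finset.mem_insert, Finset.mem_singleton] at hF
  rcases hF with rfl | rfl | rfl | rfl
  · exact hbF (by simp)
  · exact hxF (by simp)
  · exact hxF (by simp)
  · exact hxF (by simp)

/-- small spheres without separating triangles -/
theorem fac3_small {T : Finset (Finset V)} (h : Sph T) (hF : Fac3 T) (h8 : T.card < 8)
    {g : Finset V} (hg : g ∈ T) : ∃ y, y ∉ g ∧ vs T = insert y g ∧ (star T y).card = 3 ∧
      ∀ a ∈ g, ({y, a} : Finset V) ∈ edges T := by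
  have h4 : T.card ≤ 4 := by
    by_contra hcon
    have := h.eight_le hF (by omega)
    omega
  obtain ⟨v, hT⟩ := four_struct h hg h4
  refine ⟨v, hT.notMem, hT.vs_eq, ?_, hT.edge⟩
  have h1 := h.star_card v
  have h2 : nb (edges T) v = g := by
    ext a
    rw [mem_nb]
    constructor
    · rintro ⟨hav, he⟩
      obtain ⟨-, t, ht, het⟩ := mem_edges.1 he
      have : a ∈ vs T := mem_vs.2 ⟨t, ht, het (by simp)⟩
      rw [hT.vs_eq, Finset.mem_insert] at this
      rcases this with h3 | h3
      · exact absurd h3 hav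
      · exact h3
    · intro ha
      exact ⟨fun h' => hT.notMem (h' ▸ ha), hT.edge a ha⟩
  rw [h2, h.card3 g hg] at h1
  omega

end Pool.Agent.SplG
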