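import Pool.Agent.SplD.Cut
import Pool.Agent.Spl2.Defs

/-!
# Splitting a sphere along a 3-cycle which is not a triangle
-/

set_option autoImplicit false
set_option linter.unusedSectionVars false

namespace Pool.Agent.SplG

open Finset Pool.Agent.Spl1 Pool.Agent.Spl2 Pool.Agent.SplD

variable {V : Type*} [Fintype V] [DecidableEq V]

theorem mem_vs' {T : Finset (Finset V)} {v : V} : v ∈ vs T ↔ (star T v).Nonempty := by
  unfold vs
  simp only [mem_filter, mem_univ, true_and]
  constructor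
  · rintro ⟨t, ht, hv⟩
    exact ⟨t, mem_star.2 ⟨ht, hv⟩⟩
  · rintro ⟨t, ht⟩
    exact ⟨t, mem_star.1 ht⟩

variable {T A : Finset (Finset V)} {g : Finset V}

/-- the situation: `A` is a set of triangles with boundary the 3-cycle `g` -/
structure Cutting (T A : Finset (Finset V)) (g : Finset V) : Prop where
  sph : Sph T
  sub : A ⊆ T
  card3 : g.card = 3
  nT : g ∉ T
  bd : bdry A = bdry {g}

theorem Cutting.compl (h : Cutting T A g) : Cutting T (T \ A) g :=
  ⟨h.sph, Finset.sdiff_subset, h.card3, h.nT, by rw [h.sph.bdry_compl h.sub, h.bd]⟩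

theorem Cutting.compl_compl (h : Cutting T A g) : T \ (T \ A) = A :=
  Finset.sdiff_sdiff_eq_self h.sub

theorem Cutting.sphA (h : Cutting T A g) : Sph (insert g A) := cut h.sph h.sub h.card3 h.nT h.bd

theorem Cutting.nA (h : Cutting T A g) : g ∉ A := fun h1 => h.nT (h.sub h1)

theorem Cutting.inside (h : Cutting T A g) {v : V} (hv : v ∈ vs A) (hg : v ∉ g) : star T v ⊆ A := by
  refine h.sph.inside h.sub ?_ (mem_vs'.1 hv)
  intro e he hve
  rw [h.bd, mem_bdry_single h.card3] at he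
  exact hg (he.2 hve)

theorem Cutting.meet (h : Cutting T A g) {v : V} (hv : v ∈ vs A) (hv' : v ∈ vs (T \ A)) : v ∈ g := by
  by_contra hg
  obtain ⟨t, ht⟩ := mem_vs'.1 hv'
  rw [mem_star, mem_sdiff] at ht
  exact ht.1.2 (h.inside hv hg (mem_star.2 ⟨ht.1.1, ht.2⟩))

theorem Cutting.edges_eq (h : Cutting T A g) :
    edges T = edges (insert g A) ∪ edges (insert g (T \ A)) := by
  rw [cut_edges h.card3 h.bd, cut_edges h.card3 h.compl.bd]
  ext e
  rw [mem_union, mem_edges, mem_edges, mem_edges]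
  constructor
  · rintro ⟨h1, t, ht, h2⟩
    by_cases h3 : t ∈ A
    · exact Or.inl ⟨h1, t, h3, h2⟩
    · exact Or.inr ⟨h1, t, mem_sdiff.2 ⟨ht, h3⟩, h2⟩
  · rintro (⟨h1, t, ht, h2⟩ | ⟨h1, t, ht, h2⟩)
    · exact ⟨h1, t, h.sub ht, h2⟩
    · exact ⟨h1, t, (mem_sdiff.1 ht).1, h2⟩

theorem star_insert_mem (h : Cutting T A g) {v : V} (hv : v ∈ g) :
    (star (insert g A) v).card = (star A v).card + 1 := by
  have h1 : star (insert g A) v = insert g (star A v) := by
    unfold Spl1.star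
    rw [filter_insert, if_pos hv]
  rw [h1, card_insert_of_notMem]
  intro h2
  exact h.nA (mem_star.1 h2).1

theorem star_insert_not {v : V} (hv : v ∉ g) : star (insert g A) v = star A v := by
  unfold Spl1.star
  rw [filter_insert, if_neg hv]

theorem Cutting.star_eq (h : Cutting T A g) {v : V} (hv : v ∈ vs A) (hg : v ∉ g) :
    star (insert g A) v = star T v := by
  rw [star_insert_not hg]
  apply Finset.Subset.antisymm
  · intro t ht
    rw [mem_star] at ht ⊢
    exact ⟨h.sub ht.1, ht.2⟩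
  · intro t ht
    exact mem_star.2 ⟨h.inside hv hg ht, (mem_star.1 ht).2⟩

theorem Cutting.g_vs (h : Cutting T A g) : g ⊆ vs A := by
  intro v hv
  rw [mem_vs']
  have h1 := h.sphA.three_le (v := v) ⟨g, mem_star.2 ⟨mem_insert_self _ _, hv⟩⟩
  rw [star_insert_mem h hv] at h1
  exact card_pos.1 (by omega)

theorem Cutting.four (h : Cutting T A g) {v : V} (hv : v ∈ g) : 4 ≤ (star T v).card := by
  have h1 := h.sphA.three_le (v := v) ⟨g, mem_star.2 ⟨mem_insert_self _ _, hv⟩⟩
  rw [star_insert_mem h hv] at h1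
  have h2 := h.compl.sphA.three_le (v := v) ⟨g, mem_star.2 ⟨mem_insert_self _ _, hv⟩⟩
  rw [star_insert_mem h.compl hv] at h2
  have h3 : star T v = star A v ∪ star (T \ A) v := by
    ext t
    rw [mem_union, mem_star, mem_star, mem_star, mem_sdiff]
    have := @h.sub t
    tauto
  have h4 : Disjoint (star A v) (star (T \ A) v) := by
    rw [Finset.disjoint_left]
    intro t h5 h6
    exact (mem_sdiff.1 (mem_star.1 h6).1).2 (mem_star.1 h5).1
  rw [h3, card_union_of_disjoint h4]
  omega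

theorem vs_insert (h : Cutting T A g) : vs (insert g A) = vs A := by
  ext v
  constructor
  · intro hv
    by_cases hg : v ∈ g
    · exact h.g_vs hg
    · rw [mem_vs', star_insert_not hg] at hv
      exact mem_vs'.2 hv
  · intro hv
    obtain ⟨t, ht⟩ := mem_vs'.1 hv
    rw [mem_star] at ht
    exact mem_vs'.2 ⟨t, mem_star.2 ⟨mem_insert_of_mem ht.1, ht.2⟩⟩

theorem Cutting.vs_eq (h : Cutting T A g) : vs T = vs (insert g A) ∪ vs (insert g (T \ A)) := by
  rw [vs_insert h, vs_insert h.compl]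
  ext v
  rw [mem_union, mem_vs', mem_vs', mem_vs']
  constructor
  · rintro ⟨t, ht⟩
    rw [mem_star] at ht
    by_cases h3 : t ∈ A
    · exact Or.inl ⟨t, mem_star.2 ⟨h3, ht.2⟩⟩
    · exact Or.inr ⟨t, mem_star.2 ⟨mem_sdiff.2 ⟨ht.1, h3⟩, ht.2⟩⟩
  · rintro (⟨t, ht⟩ | ⟨t, ht⟩)
    · rw [mem_star] at ht
      exact ⟨t, mem_star.2 ⟨h.sub ht.1, ht.2⟩⟩
    · rw [mem_star] at ht
      exact ⟨t, mem_star.2 ⟨(mem_sdiff.1 ht.1).1, ht.2⟩⟩

theorem Cutting.card_lt (h : Cutting T A g) : (insert g (T \ A)).card < T.card := by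
  have hne : g.Nonempty := card_pos.1 (by rw [h.card3]; omega)
  obtain ⟨v, hv⟩ := hne
  have h1 := h.sphA.three_le (v := v) ⟨g, mem_star.2 ⟨mem_insert_self _ _, hv⟩⟩
  rw [star_insert_mem h hv] at h1
  have h2 : (star A v).card ≤ A.card := card_le_card (filter_subset _ _)
  rw [card_insert_of_notMem h.compl.nA, card_sdiff_of_subset h.sub]
  have h3 := card_le_card h.sub
  omega

end Pool.Agent.SplG
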