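import Pool.Agent.SplG.Loc
import Pool.Agent.SplG.Split
import Pool.Agent.SplG.Inner
import Pool.Agent.Spl2.SphDeg

/-!
# The induction over all triangulated spheres

`HA`: triviality for spheres in which every 3-cycle is a triangle.  `HB`: the same with one more pinned vertex `a`, joined to `x`, where `{x, b, c}` is a
triangle and `b`, `c` are pinned.  `gz_sph`: triviality for all spheres, with order `t` at the interior vertices of degree `3`.
-/

set_option autoImplicit false
set_option linter.unusedSectionVars false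
set_option linter.unusedDecidableInType false
set_option linter.unusedFintypeInType false

namespace Pool.Agent.SplG

open Finset Pool.Agent.Spl1 Pool.Agent.Spl2 Pool.Agent.SplD

variable {V : Type*} [Fintype V] [DecidableEq V]

/-- the orders of the vertices -/
def tau (T : Finset (Finset V)) (F : Finset V) (q t : ℕ) (v : V) : ℕ :=
  if v ∉ F ∧ (Spl1.star T v).card = 3 then t else q

theorem tau_q {T : Finset (Finset V)} {F : Finset V} {q t : ℕ} {v : V}
    (h : v ∉ F → (Spl1.star T v).card ≠ 3) : tau T F q t v = q :=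
  if_neg (fun h1 => h h1.1 h1.2)

theorem tau_t {T : Finset (Finset V)} {F : Finset V} {q t : ℕ} {v : V}
    (h : v ∉ F) (h3 : (Spl1.star T v).card = 3) : tau T F q t v = t := if_pos ⟨h, h3⟩

theorem edge_vs' {T : Finset (Finset V)} {u v : V} (h : ({u, v} : Finset V) ∈ edges T) :
    u ∈ vs T ∧ v ∈ vs T :=
  ⟨mem_vs'.2 (star_ne_of_edge h), mem_vs'.2 (star_ne_of_edge (edge_swap h))⟩

section

variable (V) in
/-- hypothesis `HA` -/
def HA (q δ : ℕ) : Prop :=
  ∀ T : Finset (Finset V), Sph T → Fac3 T → 8 ≤ T.card → ∀ F ∈ T,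
    GZ (2 * δ - 1) δ (fun _ => q) (edges T) (vs T \ F)

variable (V) in
/-- hypothesis `HB` -/
def HB (q δ : ℕ) : Prop :=
  ∀ P : Finset (Finset V), Sph P → Fac3 P → 8 ≤ P.card → ∀ x b c a : V, x ≠ b → x ≠ c → b ≠ c →
    ({x, b, c} : Finset V) ∈ P → a ∉ vs P →
    GZ (2 * δ - 1) δ (fun _ => q) (insert {a, x} (edges P)) (vs P \ {b, c})

/-- the case of a sphere without separating triangle -/
theorem gz_fac3 {q δ t : ℕ} (hδ : 1 ≤ δ) (h1 : 2 * δ ≤ 3 * q) (ht : t = δ / 2 + 1)
    (hA : HA V q δ) {T : Finset (Finset V)} (h : Sph T) (hF : Fac3 T) {F : Finset V} (hFT : F ∈ T) :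
    GZ (2 * δ - 1) δ (tau T F q t) (edges T) (vs T \ F) := by
  by_cases h8 : 8 ≤ T.card
  · obtain ⟨Q, hQ, hQ'⟩ := hA T h hF h8 F hFT
    have htau : ∀ v ∈ vs T, tau T F q t v = q := by
      intro v hv
      apply tau_q
      intro _
      have := h.four_le hF (by omega) (mem_vs'.1 hv)
      omega
    refine ⟨Q, hQ, fun p hp μ hμ v hv => ?_⟩
    rw [htau v (mem_sdiff.1 hv).1]
    exact gz_apply hμ (hQ' p hp) (fun _ _ _ he => he)
      (fun u v _ he => (htau u (edge_vs' he).1).ge)
      (fun u v hu hv _ he => by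
        rw [hμ.2.1 v hv]
        exact dvd_zero _) v hv
  · obtain ⟨y, hy, hvs, h3, he⟩ := fac3_small h hF (by omega) hFT
    obtain ⟨a, b, c, hab, hac, hbc, rfl⟩ := card_eq_three.1 (h.card3 F hFT)
    have hI : vs T \ {a, b, c} = {y} := by
      rw [hvs]
      ext z
      rw [mem_sdiff, mem_insert, mem_singleton]
      constructor
      · rintro ⟨h4 | h4, h5⟩
        · exact h4
        · exact absurd h4 h5
      · rintro rfl
        exact ⟨Or.inl rfl, hy⟩
    rw [hI]
    have ha : y ≠ a := by rintro rfl; simp at hy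
    have hb : y ≠ b := by rintro rfl; simp at hy
    have hc : y ≠ c := by rintro rfl; simp at hy
    exact gz_k4 hδ h1 ht hab hac hbc ha.symm hb.symm hc.symm _ _
      (tau_q (fun h4 => absurd (by simp) h4)) (tau_q (fun h4 => absurd (by simp) h4))
      (tau_q (fun h4 => absurd (by simp) h4)) (tau_t hy h3) (he a (by simp)) (he b (by simp))
      (he c (by simp))

/-- the facts about the splitting `T = T' + P` -/
theorem tau_outer {T A : Finset (Finset V)} {g F : Finset V} (hc : Cutting T A g) {q t : ℕ} {v : V}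
    (hv : v ∈ vs (T \ A)) (hg : v ∉ g) :
    tau (insert g (T \ A)) F q t v = tau T F q t v := by
  unfold tau
  rw [hc.compl.star_eq hv hg]

theorem tau_inner {T A : Finset (Finset V)} {g F : Finset V} (hc : Cutting T A g) {q t : ℕ} {v : V}
    (hv : v ∈ vs A) (hg : v ∉ g) (hF : v ∉ F) :
    tau (insert g A) g q t v = tau T F q t v := by
  unfold tau
  rw [hc.star_eq hv hg]
  simp [hg, hF]

theorem tau_g {T A : Finset (Finset V)} {g F : Finset V} (hc : Cutting T A g) {q t : ℕ} {v : V}
    (hg : v ∈ g) : tau T F q t v = q := by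
  apply tau_q
  intro _
  have := hc.four hg
  omega

end

theorem tau_le {T : Finset (Finset V)} {F : Finset V} {q t : ℕ} (h : t ≤ q) (v : V) :
    tau T F q t v ≤ q := by
  unfold tau
  split_ifs
  · exact h
  · exact le_rfl

/-- the inner piece, if a corner `x` has degree `3` outside -/
theorem inner_piece {q δ t : ℕ} (hδ : 1 ≤ δ) (h1 : 2 * δ ≤ 3 * q) (h2 : 3 * q ≤ 2 * δ + 3)
    (ht : t = δ / 2 + 1) (hB : HB V q δ) {T A : Finset (Finset V)} {F : Finset V} {x b c a : V}
    (hc : Cutting T A {x, b, c}) (hPF : Fac3 (insert {x, b, c} A)) (hxb : x ≠ b) (hxc : x ≠ c)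
    (hbc : b ≠ c) (hax : a ≠ x) (hab : a ≠ b) (hac : a ≠ c) (haA : a ∉ vs A)
    (hxa : ({a, x} : Finset V) ∈ edges T) (hta : tau T F q t a = q)
    (hF : ∀ v ∈ vs A, v ∉ ({x, b, c} : Finset V) → v ∉ F) :
    ∃ Q : MvPolynomial (V × Fin 2) ℝ, Q ≠ 0 ∧ ∀ p : V × Fin 2 → ℝ, MvPolynomial.eval p Q ≠ 0 →
      ∀ μ ∈ Sol (2 * δ - 1) δ (tau T F q t) p (edges T) (vs T \ F), dl p a ^ q ∣ μ a →
        dl p b ^ q ∣ μ b → dl p c ^ q ∣ μ c → ∀ v ∈ vs A \ {b, c}, dl p v ^ tau T F q t v ∣ μ v := by
  have hP := hc.sphA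
  have hvP := vs_insert hc
  have hgP : ({x, b, c} : Finset V) ∈ insert {x, b, c} A := mem_insert_self _ _
  have hxJ : x ∈ vs A \ {b, c} := by
    rw [mem_sdiff]
    exact ⟨hc.g_vs (by simp), by simp [hxb, hxc]⟩
  have hE : ∀ u v, u ≠ v → ({u, v} : Finset V) ∈ insert {a, x} (edges (insert {x, b, c} A)) →
      ({u, v} : Finset V) ∈ edges T := by
    intro u v _ he
    rw [mem_insert] at he
    rcases he with he | he
    · rwa [he]
    · rw [hc.edges_eq]
      exact mem_union_left _ he
  have hends : ∀ u v, u ≠ v → ({u, v} : Finset V) ∈ insert {a, x} (edges (insert {x, b, c} A)) →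
      u = a ∨ u ∈ vs A := by
    intro u v _ he
    rw [mem_insert] at he
    rcases he with he | he
    · have h3 : u ∈ ({a, x} : Finset V) := by rw [← he]; simp
      rw [mem_insert, mem_singleton] at h3
      rcases h3 with rfl | rfl
      · exact Or.inl rfl
      · exact Or.inr (mem_sdiff.1 hxJ).1
    · rw [← hvP]
      exact Or.inr (edge_vs' he).1
  by_cases h8 : 8 ≤ (insert {x, b, c} A).card
  · obtain ⟨Q, hQ, hQ'⟩ := hB _ hP hPF h8 x b c a hxb hxc hbc hgP (by rwa [hvP])
    rw [hvP] at hQ'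
    have htau : ∀ v ∈ vs A, tau T F q t v = q := by
      intro v hv
      by_cases hg : v ∈ ({x, b, c} : Finset V)
      · exact tau_g hc hg
      · rw [← tau_inner hc hv hg (hF v hv hg)]
        apply tau_q
        intro _
        have := hP.four_le hPF (by omega) (mem_vs'.1 (by rwa [hvP]))
        omega
    refine ⟨Q, hQ, fun p hp μ hμ ha hb hcc v hv => ?_⟩
    rw [htau v (mem_sdiff.1 hv).1]
    refine gz_apply hμ (hQ' p hp) hE ?_ ?_ v hv
    · intro u v huv he
      rcases hends u v huv he with rfl | hu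
      · exact hta.ge
      · exact (htau u hu).ge
    · intro u w hu hw huw he
      rcases hends w u huw.symm (by rwa [pair_comm w u]) with rfl | hw'
      · exact ha
      · rw [mem_sdiff, not_and, not_not] at hw
        have h3 := hw hw'
        rw [mem_insert, mem_singleton] at h3
        rcases h3 with rfl | rfl
        · exact hb
        · exact hcc
  · obtain ⟨y, hy, hvs, h3, he⟩ := fac3_small hP hPF (by omega) hgP
    rw [hvP] at hvs
    have hyA : y ∈ vs A := by rw [hvs]; exact mem_insert_self _ _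
    have hyF := hF y hyA hy
    have hty : tau T F q t y = t := by
      rw [← tau_inner hc hyA hy hyF]
      exact tau_t hy h3
    have hyx : y ≠ x := by rintro rfl; simp at hy
    have hyb : y ≠ b := by rintro rfl; simp at hy
    have hyc : y ≠ c := by rintro rfl; simp at hy
    have hya : y ≠ a := by rintro rfl; exact haA hyA
    have hmem : ∀ e ∈ edges (insert {x, b, c} A), e ∈ insert {a, x} (edges (insert {x, b, c} A)) :=
      fun e h => mem_insert_of_mem h
    have e1 : ({x, a} : Finset V) ∈ insert {a, x} (edges (insert {x, b, c} A)) := by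
      rw [pair_comm x a]
      exact mem_insert_self _ _
    have f2 : ({x, b} : Finset V) ∈ edges (insert {x, b, c} A) :=
      edge_of_tri hgP hxb (by simp) (by simp)
    have f3 : ({x, c} : Finset V) ∈ edges (insert {x, b, c} A) :=
      edge_of_tri hgP hxc (by simp) (by simp)
    have f4 : ({y, b} : Finset V) ∈ edges (insert {x, b, c} A) := he b (by simp)
    have f5 : ({y, c} : Finset V) ∈ edges (insert {x, b, c} A) := he c (by simp)
    have f6 : ({x, y} : Finset V) ∈ edges (insert {x, b, c} A) := by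
      rw [pair_comm x y]
      exact he x (by simp)
    obtain ⟨τ1, hτ1⟩ : ∃ τ1 : V → ℕ, ∀ v, τ1 v = if v = y then t else q := ⟨_, fun _ => rfl⟩
    have t1 : τ1 y = t := by rw [hτ1, if_pos rfl]
    have t2 : ∀ v, v ≠ y → τ1 v = q := fun v hv => by rw [hτ1, if_neg hv]
    obtain ⟨Q, hQ, hQ'⟩ := gz_t1 hδ h1 h2 ht hab hac hbc hax hxb.symm hxc.symm hya.symm hyb.symm
      hyc.symm hyx.symm τ1 _ (t2 a hya.symm) (t2 b hyb.symm) (t2 c hyc.symm) (t2 x hyx.symm) t1 e1
      (hmem _ f2) (hmem _ f3) (hmem _ f4) (hmem _ f5) (hmem _ f6)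
    have hJ : vs A \ {b, c} = {x, y} := by
      rw [hvs]
      ext z
      simp only [mem_sdiff, mem_insert, mem_singleton]
      constructor
      · rintro ⟨h4, h5⟩
        tauto
      · rintro (rfl | rfl)
        · exact ⟨by simp, by simp [hxb, hxc]⟩
        · exact ⟨by simp, by simp [hyb, hyc]⟩
    refine ⟨Q, hQ, fun p hp μ hμ ha hb hcc => ?_⟩
    have key := gz_apply hμ (hQ' p hp) hE ?_ ?_
    · rw [hJ]
      intro v hv
      have h5 := key v hv
      rw [mem_insert, mem_singleton] at hv
      rcases hv with rfl | rfl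
      · rw [tau_g hc (by simp)]
        rwa [t2 _ hyx.symm] at h5
      · rw [hty]
        rwa [t1] at h5
    · intro u v huv he
      rcases hends u v huv he with rfl | hu
      · rw [t2 _ hya.symm, hta]
      · by_cases huy : u = y
        · rw [huy, t1, hty]
        · rw [t2 _ huy]
          rw [hvs, mem_insert] at hu
          rw [tau_g hc (hu.resolve_left huy)]
    · intro u w hu hw huw he
      have hwy : w ≠ y := by rintro rfl; simp at hw
      have hwx : w ≠ x := by rintro rfl; simp at hw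
      rw [t2 _ hwy]
      rcases hends w u huw.symm (by rwa [pair_comm w u]) with rfl | hw'
      · exact ha
      · rw [hvs] at hw'
        simp only [mem_insert, mem_singleton] at hw'
        rcases hw' with h5 | h5 | h5 | h5
        · exact absurd h5 hwy
        · exact absurd h5 hwx
        · rw [h5]; exact hb
        · rw [h5]; exact hcc

theorem gz_sph {q δ t : ℕ} (hδ : 1 ≤ δ) (h1 : 2 * δ ≤ 3 * q) (h2 : 3 * q ≤ 2 * δ + 3)
    (ht : t = δ / 2 + 1) (hA : HA V q δ) (hB : HB V q δ) :
    ∀ (n : ℕ) (T : Finset (Finset V)), T.card = n → Sph T → ∀ F ∈ T,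
      GZ (2 * δ - 1) δ (tau T F q t) (edges T) (vs T \ F) := by
  intro n
  induction n using Nat.strong_induction_on with
  | _ n ih =>
  intro T hn h F hFT
  by_cases hF3 : Fac3 T
  · exact gz_fac3 hδ h1 ht hA h hF3 hFT
  obtain ⟨g, A, hA1, hA2, hg3, hgT, hb, hPF⟩ := exists_inner h hF3 hFT
  have hc : Cutting T A g := ⟨h, hA1, hg3, hgT, hb⟩
  have hlt := hc.card_lt
  have hltP : (insert g A).card < T.card := by
    have := hc.compl.card_lt
    rwa [hc.compl_compl] at this
  have hFA : F ∈ T \ A := mem_sdiff.2 ⟨hFT, hA2⟩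
  have hFT' : F ∈ insert g (T \ A) := mem_insert_of_mem hFA
  have htq : t ≤ q := by omega
  have vT' := vs_insert hc.compl
  have hFv : ∀ v ∈ F, v ∈ vs (T \ A) := fun v hv => mem_vs'.2 ⟨F, mem_star.2 ⟨hFA, hv⟩⟩
  have hPF' : ∀ v ∈ vs A, v ∉ g → v ∉ F := fun v hv hvg hvF => hvg (hc.meet hv (hFv v hvF))
  obtain ⟨Q1, hQ1, hQ1'⟩ := ih _ (by omega) (insert g (T \ A)) rfl hc.compl.sphA F hFT'
  have outer : ∀ p, MvPolynomial.eval p Q1 ≠ 0 →
      ∀ μ ∈ Sol (2 * δ - 1) δ (tau T F q t) p (edges T) (vs T \ F), ∀ v ∈ vs (T \ A),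
        dl p v ^ tau (insert g (T \ A)) F q t v ∣ μ v := by
    intro p hp μ hμ v hv
    have hz : ∀ w ∈ F, μ w = 0 := fun w hw => hμ.2.1 w (fun h5 => (mem_sdiff.1 h5).2 hw)
    by_cases hvF : v ∈ F
    · rw [hz v hvF]
      exact dvd_zero _
    refine gz_apply hμ (hQ1' p hp) ?_ ?_ ?_ v (mem_sdiff.2 ⟨by rwa [vT'], hvF⟩)
    · intro u w _ he
      rw [hc.edges_eq]
      exact mem_union_right _ he
    · intro u w _ he
      have hu := (edge_vs' he).1
      rw [vT'] at hu
      by_cases hg : u ∈ g
      · rw [tau_g hc hg]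
        exact tau_le htq u
      · exact (tau_outer hc hu hg).le
    · intro u w _ hw _ he
      have hw' := (edge_vs' he).2
      rw [mem_sdiff, not_and, not_not] at hw
      rw [hz w (hw hw')]
      exact dvd_zero _
  have hcases : ∀ v ∈ vs T, v ∈ vs A ∨ v ∈ vs (T \ A) := by
    intro v hv
    rw [hc.vs_eq, vs_insert hc, vT', mem_union] at hv
    exact hv
  by_cases hx : ∃ x ∈ g, x ∉ F ∧ (Spl1.star (insert g (T \ A)) x).card = 3
  · obtain ⟨x, hxg, hxF, hx3⟩ := hx
    have h2c : (g.erase x).card = 2 := by rw [card_erase_of_mem hxg, hg3]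
    obtain ⟨b, c, hbc, hbcg⟩ := card_eq_two.1 h2c
    have hb' : b ∈ g.erase x := by rw [hbcg]; simp
    have hc' : c ∈ g.erase x := by rw [hbcg]; simp
    have hxb : x ≠ b := (ne_of_mem_erase hb').symm
    have hxc : x ≠ c := (ne_of_mem_erase hc').symm
    have hgeq : g = {x, b, c} := by rw [← insert_erase hxg, hbcg]
    subst hgeq
    have hgT' : ({x, b, c} : Finset V) ∈ insert {x, b, c} (T \ A) := mem_insert_self _ _
    obtain ⟨a, hax, hab, hac, hst⟩ := deg3 hc.compl.sphA hxb hxc hbc hx3 hgT'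
    have hag : a ∉ ({x, b, c} : Finset V) := by simp [hax, hab, hac]
    have hxab : ({x, a, b} : Finset V) ∈ insert {x, b, c} (T \ A) := by
      have h5 : ({x, a, b} : Finset V) ∈ Spl1.star (insert {x, b, c} (T \ A)) x := by
        rw [hst]; simp
      exact (mem_star.1 h5).1
    have hxab' : ({x, a, b} : Finset V) ∈ T \ A := by
      rw [mem_insert] at hxab
      rcases hxab with h5 | h5
      · exact absurd (by rw [← h5]; simp) hag
      · exact h5
    have haT : a ∈ vs (T \ A) := mem_vs'.2 ⟨_, mem_star.2 ⟨hxab', by simp⟩⟩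
    have haA : a ∉ vs A := fun h5 => hag (hc.meet h5 haT)
    have hq : ∀ w, x ≠ w → ({x, w} : Finset V) ∈ edges (insert {x, b, c} (T \ A)) →
        tau (insert {x, b, c} (T \ A)) F q t w = q := by
      intro w hxw he
      apply tau_q
      intro hwF hw3
      exact deg3_adj hc.compl.sphA hFT' hxw he hx3 hw3 hxF hwF
    have exa : ({x, a} : Finset V) ∈ edges (insert {x, b, c} (T \ A)) :=
      edge_of_tri hxab hax.symm (by simp) (by simp)
    have tqa := hq a hax.symm exa
    have tqb := hq b hxb (edge_of_tri hgT' hxb (by simp) (by simp))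
    have tqc := hq c hxc (edge_of_tri hgT' hxc (by simp) (by simp))
    have hta : tau T F q t a = q := by rw [← tau_outer hc haT hag, tqa]
    have hxaT : ({a, x} : Finset V) ∈ edges T := by
      rw [pair_comm, hc.edges_eq]
      exact mem_union_right _ exa
    obtain ⟨Q3, hQ3, hQ3'⟩ := inner_piece hδ h1 h2 ht hB hc hPF hxb hxc hbc hax hab hac haA hxaT
      hta hPF'
    refine ⟨Q1 * Q3, mul_ne_zero hQ1 hQ3, fun p hp μ hμ v hv => ?_⟩
    rw [map_mul] at hp
    have o := outer p (left_ne_zero_of_mul hp) μ hμ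
    have ob := o b (hc.compl.g_vs (by simp))
    have oc := o c (hc.compl.g_vs (by simp))
    have oa := o a haT
    rw [tqb] at ob
    rw [tqc] at oc
    rw [tqa] at oa
    have inner := hQ3' p (right_ne_zero_of_mul hp) μ hμ oa ob oc
    by_cases h6 : v ∈ vs A \ {b, c}
    · exact inner v h6
    · rw [mem_sdiff, not_and, not_not, mem_insert, mem_singleton] at h6
      by_cases h7 : v ∈ vs A
      · rcases h6 h7 with rfl | rfl
        · rw [tau_g hc (by simp)]
          exact ob
        · rw [tau_g hc (by simp)]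
          exact oc
      · have h8 := (hcases v (mem_sdiff.1 hv).1).resolve_left h7
        rw [← tau_outer hc h8 (fun h9 => h7 (hc.g_vs h9))]
        exact o v h8
  · push Not at hx
    have tq : ∀ v ∈ g, tau (insert g (T \ A)) F q t v = q := fun v hv => tau_q (hx v hv)
    obtain ⟨Q2, hQ2, hQ2'⟩ := ih _ (by omega) (insert g A) rfl hc.sphA g (mem_insert_self _ _)
    refine ⟨Q1 * Q2, mul_ne_zero hQ1 hQ2, fun p hp μ hμ v hv => ?_⟩
    rw [map_mul] at hp
    have o := outer p (left_ne_zero_of_mul hp) μ hμ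
    by_cases hvg : v ∈ g
    · rw [tau_g hc hvg, ← tq v hvg]
      exact o v (hc.compl.g_vs hvg)
    rcases hcases v (mem_sdiff.1 hv).1 with hvA | hvA
    · have hvF := (mem_sdiff.1 hv).2
      rw [← tau_inner hc hvA hvg hvF]
      refine gz_apply hμ (hQ2' p (right_ne_zero_of_mul hp)) ?_ ?_ ?_ v
        (mem_sdiff.2 ⟨by rwa [vs_insert hc], hvg⟩)
      · intro u w _ he
        rw [hc.edges_eq]
        exact mem_union_left _ he
      · intro u w _ he
        have hu := (edge_vs' he).1
        rw [vs_insert hc] at hu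
        by_cases hg : u ∈ g
        · rw [tau_g hc hg]
          exact tau_le htq u
        · exact (tau_inner hc hu hg (hPF' u hu hg)).le
      · intro u w _ hw _ he
        have hw' := (edge_vs' he).2
        rw [mem_sdiff, not_and, not_not] at hw
        have hwg := hw hw'
        rw [tau_q (fun h9 => absurd hwg h9), ← tq w hwg]
        exact o w (hc.compl.g_vs hwg)
    · rw [← tau_outer hc hvA hvg]
      exact o v hvA

end Pool.Agent.SplG
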