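import Pool.Agent.SplG.Gen

/-!
# Localization of motions
-/

set_option autoImplicit false
set_option linter.unusedSectionVars false
set_option linter.unusedDecidableInType false
set_option linter.unusedFintypeInType false

namespace Pool.Agent.SplG

open MvPolynomial Pool.Agent.Spl2

variable {V : Type*} [Fintype V] [DecidableEq V] {K : Type*} [Field K]

theorem coeff_right {p : V × Fin 2 → K} {u v : V} {s i j l : ℕ} {f : MvPolynomial (Fin 3) K}
    (h : dl p v ^ s ∣ f) (hj : j < s) : coeff (ex3 i j l) (adp p u v f) = 0 := by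
  obtain ⟨g, rfl⟩ := h
  rw [map_mul, map_pow, adp_dl_right]
  exact brt_coeff 1 _ _ _ _ hj

theorem coeff_left {p : V × Fin 2 → K} {u v : V} {s i j l : ℕ} {f : MvPolynomial (Fin 3) K}
    (h : dl p u ^ s ∣ f) (hi : i < s) : coeff (ex3 i j l) (adp p u v f) = 0 := by
  obtain ⟨g, rfl⟩ := h
  rw [map_mul, map_pow, adp_dl_left]
  exact brt_coeff 0 _ _ _ _ hi

/-- restriction of a motion to `J` -/
noncomputable def rs (J : Finset V) (μ : V → MvPolynomial (Fin 3) K) : V → MvPolynomial (Fin 3) K :=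
  fun v => if v ∈ J then μ v else 0

theorem rs_mem {J : Finset V} {μ : V → MvPolynomial (Fin 3) K} {v : V} (hv : v ∈ J) :
    rs J μ v = μ v := if_pos hv

theorem rs_not {J : Finset V} {μ : V → MvPolynomial (Fin 3) K} {v : V} (hv : v ∉ J) :
    rs J μ v = 0 := if_neg hv

theorem sol_loc {k δ : ℕ} {τ τ' : V → ℕ} {p : V × Fin 2 → K} {E E' : Finset (Finset V)}
    {I J : Finset V} {μ : V → MvPolynomial (Fin 3) K} (hμ : μ ∈ Sol k δ τ p E I)
    (hE : ∀ u v, u ≠ v → ({u, v} : Finset V) ∈ E' → ({u, v} : Finset V) ∈ E)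
    (hτ : ∀ u v, u ≠ v → ({u, v} : Finset V) ∈ E' → τ' u ≤ τ u)
    (h : ∀ u v, u ∈ J → v ∉ J → u ≠ v → ({u, v} : Finset V) ∈ E' → dl p v ^ τ' v ∣ μ v) :
    rs J μ ∈ Sol k δ τ' p E' J := by
  refine ⟨fun v => ?_, fun v hv => rs_not hv, ?_⟩
  · by_cases hv : v ∈ J
    · rw [rs_mem hv]
      exact hμ.1 v
    · rw [rs_not hv]
      exact isHomogeneous_zero _ _ _
  · intro u v huv he i j hij hi hj
    have e1 := hμ.2.2 u v huv (hE u v huv he) i j hij (hi.trans_le (hτ u v huv he))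
      (hj.trans_le (hτ v u huv.symm (by rwa [Finset.pair_comm])))
    by_cases hu : u ∈ J
    · by_cases hv : v ∈ J
      · rw [rs_mem hu, rs_mem hv]
        exact e1
      · rw [rs_mem hu, rs_not hv, sub_zero]
        rw [map_sub, coeff_sub, coeff_right (h u v hu hv huv he) hj, sub_zero] at e1
        exact e1
    · by_cases hv : v ∈ J
      · rw [rs_not hu, rs_mem hv, zero_sub, map_neg, coeff_neg]
        rw [map_sub, coeff_sub, coeff_left (h v u hv hu huv.symm (by rwa [Finset.pair_comm])) hi,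
          zero_sub] at e1
        exact e1
      · rw [rs_not hu, rs_not hv, sub_zero, map_zero, coeff_zero]

/-- generic triviality gives the divisibility for a motion of a larger configuration -/
theorem gz_apply {k δ : ℕ} {τ τ' : V → ℕ} {p : V × Fin 2 → ℝ} {E E' : Finset (Finset V)}
    {I J : Finset V} {μ : V → MvPolynomial (Fin 3) ℝ} (hμ : μ ∈ Sol k δ τ p E I)
    (hZ : ∀ μ ∈ Sol k δ τ' p E' J, ∀ v ∈ J, dl p v ^ τ' v ∣ μ v)
    (hE : ∀ u v, u ≠ v → ({u, v} : Finset V) ∈ E' → ({u, v} : Finset V) ∈ E)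
    (hτ : ∀ u v, u ≠ v → ({u, v} : Finset V) ∈ E' → τ' u ≤ τ u)
    (h : ∀ u v, u ∈ J → v ∉ J → u ≠ v → ({u, v} : Finset V) ∈ E' → dl p v ^ τ' v ∣ μ v) :
    ∀ v ∈ J, dl p v ^ τ' v ∣ μ v := by
  intro v hv
  have h1 := hZ _ (sol_loc hμ hE hτ h) v hv
  rwa [rs_mem hv] at h1

end Pool.Agent.SplG
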