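import Pool.Agent.SplG.Ideal

/-!
# A vertex of degree 3

`pin3`: if `f` (a form of degree `k`) is in the edge ideals of `y` with three vertices `a`, `b`, `c` in different directions, with orders
`t` at `y` and `q` at `a`, `b`, `c`, and `k < s + 3 min (δ - s, q)` for all `s < t`, then `L_y ^ t` divides `f`.
-/

set_option autoImplicit false
set_option linter.unusedSectionVars false
set_option linter.unusedDecidableInType false
set_option linter.unusedFintypeInType false

namespace Pool.Agent.SplG

open MvPolynomial Pool.Agent.Spl2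

variable {V : Type*} [Fintype V] [DecidableEq V] {K : Type*} [Field K]

theorem X_pow_dvd_iff' {c : Fin 3} {s : ℕ} {f : MvPolynomial (Fin 3) K} :
    X c ^ s ∣ f ↔ ∀ m : Fin 3 →₀ ℕ, m c < s → coeff m f = 0 := by
  have h := mem_ideal_span_monomial_image (x := f) (s := {Finsupp.single c s})
  rw [Set.image_singleton, ← X_pow_eq_monomial, Ideal.mem_span_singleton] at h
  rw [h]
  constructor
  · intro h1 m hm
    by_contra h2
    obtain ⟨n, hn, hnm⟩ := h1 m (mem_support_iff.2 h2)
    rw [Set.mem_singleton_iff] at hn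
    subst hn
    have := hnm c
    rw [Finsupp.single_eq_same] at this
    omega
  · intro h1 m hm
    refine ⟨_, rfl, ?_⟩
    rw [Finsupp.single_le_iff]
    by_contra h2
    exact (mem_support_iff.1 hm) (h1 m (by omega))

/-- coordinates centred at `v` -/
noncomputable def shv (p : V × Fin 2 → K) (v : V) :
    MvPolynomial (Fin 3) K →ₐ[K] MvPolynomial (Fin 3) K :=
  aeval ![X 0, X 1, X 2 - C (p (v, 0)) * X 0 - C (p (v, 1)) * X 1]

/-- the inverse -/
noncomputable def shi (p : V × Fin 2 → K) (v : V) :
    MvPolynomial (Fin 3) K →ₐ[K] MvPolynomial (Fin 3) K :=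
  aeval ![X 0, X 1, dl p v]

theorem shi_shv (p : V × Fin 2 → K) (v : V) (f : MvPolynomial (Fin 3) K) :
    shi p v (shv p v f) = f := by
  have h1 : (shi p v).comp (shv p v) = AlgHom.id K _ := by
    apply MvPolynomial.algHom_ext
    intro i
    fin_cases i
    · simp [shi, shv]
    · simp [shi, shv]
    · simp only [shi, shv, AlgHom.comp_apply, aeval_X, Fin.reduceFinMk, Matrix.cons_val_zero,
        Matrix.cons_val_one, map_mul, map_sub, algHom_C, algebraMap_eq,
        AlgHom.id_apply, Matrix.cons_val, dl]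
      ring
  exact DFunLike.congr_fun h1 f

theorem shv_homog (p : V × Fin 2 → K) (v : V) {k : ℕ} {f : MvPolynomial (Fin 3) K}
    (hf : f.IsHomogeneous k) : (shv p v f).IsHomogeneous k := by
  have hg : ∀ i, ((![X 0, X 1, X 2 - C (p (v, 0)) * X 0 - C (p (v, 1)) * X 1] :
      Fin 3 → MvPolynomial (Fin 3) K) i).IsHomogeneous 1 := by
    intro i
    fin_cases i
    · exact isHomogeneous_X _ _
    · exact isHomogeneous_X _ _
    · exact ((isHomogeneous_X _ _).sub (isHomogeneous_C_mul_X _ _)).sub
        (isHomogeneous_C_mul_X _ _)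
  have := hf.aeval _ hg
  rw [one_mul] at this
  exact this

theorem dvd_of_shv {p : V × Fin 2 → K} {v : V} {s : ℕ} {f : MvPolynomial (Fin 3) K}
    (h : X 2 ^ s ∣ shv p v f) : dl p v ^ s ∣ f := by
  have h1 := map_dvd (shi p v) h
  rw [shi_shv, map_pow] at h1
  have h2 : shi p v (X 2) = dl p v := by simp [shi]
  rwa [h2] at h1

/-- restriction to the line `L_v = 0`, `ξ = 1` -/
noncomputable def ph (p : V × Fin 2 → K) (v : V) : MvPolynomial (Fin 3) K →ₐ[K] Polynomial K :=
  aeval ![1, Polynomial.X, -Polynomial.C (p (v, 0)) - Polynomial.C (p (v, 1)) * Polynomial.X]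

/-- the same in the coordinates centred at `v` -/
noncomputable def ph0 (K : Type*) [Field K] : MvPolynomial (Fin 3) K →ₐ[K] Polynomial K :=
  aeval ![1, Polynomial.X, 0]

theorem ph0_shv (p : V × Fin 2 → K) (v : V) (f : MvPolynomial (Fin 3) K) :
    ph0 K (shv p v f) = ph p v f := by
  have h1 : (ph0 K).comp (shv p v) = ph p v := by
    apply MvPolynomial.algHom_ext
    intro i
    fin_cases i
    · simp [ph0, shv, ph]
    · simp [ph0, shv, ph]
    · simp only [ph0, shv, ph, AlgHom.comp_apply, aeval_X, Fin.reduceFinMk, Matrix.cons_val_zero,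
        Matrix.cons_val_one, map_mul, map_sub, Matrix.cons_val, algHom_C,
        Polynomial.algebraMap_eq]
      ring
  exact DFunLike.congr_fun h1 f

theorem coeff_ph0 {n : ℕ} {f : MvPolynomial (Fin 3) K} (hf : f.IsHomogeneous n) {j : ℕ}
    (hj : j ≤ n) : (ph0 K f).coeff j = coeff (ex3 (n - j) j 0) f := by
  have h1 : ph0 K f = ∑ m ∈ f.support, Polynomial.C (coeff m f) *
      (Polynomial.X ^ (m 1) * (0 : Polynomial K) ^ (m 2)) := by
    unfold ph0
    rw [aeval_def, eval₂_eq']
    refine Finset.sum_congr rfl fun m _ => ?_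
    rw [Fin.prod_univ_three]
    simp
  rw [h1, Polynomial.finsetSum_coeff, Finset.sum_eq_single (ex3 (n - j) j 0)]
  · rw [Polynomial.coeff_C_mul, ex3_one, ex3_two, pow_zero, mul_one, Polynomial.coeff_X_pow,
      if_pos rfl, mul_one]
  · intro m hm hne
    rw [Polynomial.coeff_C_mul]
    by_cases h2 : m 2 = 0
    · rw [h2, pow_zero, mul_one, Polynomial.coeff_X_pow, if_neg, mul_zero]
      rintro rfl
      apply hne
      have h6 : m 0 + m 1 + m 2 = n := by
        have h7 := hf (mem_support_iff.1 hm)
        rw [← h7, Finsupp.weight_apply, Finsupp.sum_fintype _ _ (by simp), Fin.sum_univ_three]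
        simp
      rw [eq_ex3 m, ex3_one, h2]
      congr 1
      omega
    · rw [zero_pow h2]
      simp
  · intro h2
    rw [mem_support_iff, not_not] at h2
    rw [h2]
    simp

theorem ph_natDegree {p : V × Fin 2 → K} {v : V} {n : ℕ} {f : MvPolynomial (Fin 3) K}
    (hf : f.IsHomogeneous n) : (ph p v f).natDegree ≤ n := by
  unfold ph
  rw [aeval_def, eval₂_eq']
  refine Polynomial.natDegree_sum_le_of_forall_le _ _ fun m hm => ?_
  have h6 : m 0 + m 1 + m 2 = n := by
    have h7 := hf (mem_support_iff.1 hm)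
    rw [← h7, Finsupp.weight_apply, Finsupp.sum_fintype _ _ (by simp), Fin.sum_univ_three]
    simp
  rw [Fin.prod_univ_three, Polynomial.algebraMap_eq]
  simp only [Matrix.cons_val_zero, Matrix.cons_val_one, Matrix.cons_val, one_pow, one_mul]
  refine (Polynomial.natDegree_C_mul_le _ _).trans (Polynomial.natDegree_mul_le.trans ?_)
  have h1 : ((-Polynomial.C (p (v, 0)) - Polynomial.C (p (v, 1)) * Polynomial.X) ^
      (m 2)).natDegree ≤ m 2 * 1 := by
    refine Polynomial.natDegree_pow_le.trans (Nat.mul_le_mul_left _ ?_)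
    compute_degree
  have h2 : (Polynomial.X ^ (m 1) : Polynomial K).natDegree ≤ m 1 := Polynomial.natDegree_X_pow_le _
  omega

theorem dvd_of_ph {p : V × Fin 2 → K} {v : V} {n : ℕ} {f : MvPolynomial (Fin 3) K}
    (hf : f.IsHomogeneous n) (h : ph p v f = 0) : dl p v ∣ f := by
  have h1 : X 2 ^ 1 ∣ shv p v f := by
    rw [X_pow_dvd_iff']
    intro m hm
    by_contra h2
    have h3 := shv_homog p v hf
    have h6 : m 0 + m 1 + m 2 = n := by
      have h7 := h3 h2
      rw [← h7, Finsupp.weight_apply, Finsupp.sum_fintype _ _ (by simp), Fin.sum_univ_three]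
      simp
    have h4 := coeff_ph0 h3 (j := m 1) (by omega)
    rw [ph0_shv, h, Polynomial.coeff_zero, show n - m 1 = m 0 by omega,
      show (0 : ℕ) = m 2 by omega, ← eq_ex3] at h4
    exact h2 h4.symm
  have h2 := dvd_of_shv h1
  rwa [pow_one] at h2

theorem ph_dl (p : V × Fin 2 → K) (v w : V) : ph p v (dl p w) =
    Polynomial.C (p (w, 0) - p (v, 0)) + Polynomial.C (p (w, 1) - p (v, 1)) * Polynomial.X := by
  simp only [ph, dl, map_add, map_mul, aeval_X, algHom_C, Polynomial.algebraMap_eq,
    Matrix.cons_val_zero, Matrix.cons_val_one, Matrix.cons_val, map_sub]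
  ring

theorem ph_dvd {p : V × Fin 2 → K} {y a : V} {M : ℕ} {g : MvPolynomial (Fin 3) K}
    (h : g ∈ eI p y a M 1 M) : ph p y (dl p a) ^ M ∣ ph p y g := by
  have h0 : ph p y (dl p y) = 0 := by
    rw [ph_dl]
    simp
  have h1 : ph p y g ∈ (eI p y a M 1 M).map (ph p y) := Ideal.mem_map_of_mem _ h
  have h2 : (eI p y a M 1 M).map (ph p y) ≤ Ideal.span {ph p y (dl p a) ^ M} := by
    unfold eI
    rw [Ideal.map_sup, Ideal.map_sup, Ideal.map_pow]
    refine sup_le ?_ (sup_le ?_ ?_)
    · rw [← Ideal.span_singleton_pow]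
      refine Ideal.pow_right_mono ?_ M
      rw [Ideal.map_span, Ideal.span_le]
      rintro _ ⟨g, hg, rfl⟩
      simp only [Set.mem_insert_iff, Set.mem_singleton_iff] at hg
      rcases hg with rfl | rfl
      · rw [h0]
        exact Ideal.zero_mem _
      · exact Ideal.subset_span rfl
    · rw [Ideal.map_span, Ideal.span_le]
      rintro _ ⟨g, hg, rfl⟩
      rw [Set.mem_singleton_iff] at hg
      subst hg
      rw [pow_one, h0]
      exact Ideal.zero_mem _
    · rw [Ideal.map_span, Ideal.span_le]
      rintro _ ⟨g, hg, rfl⟩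
      rw [Set.mem_singleton_iff] at hg
      subst hg
      rw [map_pow]
      exact Ideal.subset_span rfl
  exact Ideal.mem_span_singleton.1 (h2 h1)

theorem pin_step {p : V × Fin 2 → K} {y a : V} (h : p (y, 1) ≠ p (a, 1)) {δ t q s : ℕ}
    (hs : s < t) {g : MvPolynomial (Fin 3) K} (hf : dl p y ^ s * g ∈ eI p y a δ t q) :
    g ∈ eI p y a (min (δ - s) q) 1 (min (δ - s) q) := by
  apply mem_eI_of_adp h
  have h1 := map_eI (a := 0) (b := 1) (by decide) (adp p y a : _ →+* _)
      (by
        show X 0 ∣ adp p y a (dl p y)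
        rw [adp_dl_left]
        exact dvd_mul_left _ _)
      (by
        show X 1 ∣ adp p y a (dl p a)
        rw [adp_dl_right]
        exact dvd_mul_left _ _) hf
  rw [mem_mI] at h1 ⊢
  intro m _ h2 h3
  have h4 := h1 (m + Finsupp.single 0 s)
    (by simp only [Finsupp.add_apply, Finsupp.single_eq_same, Finsupp.single_apply]; simp; omega)
    (by simp only [Finsupp.add_apply, Finsupp.single_eq_same]; omega)
    (by simp only [Finsupp.add_apply, Finsupp.single_apply]; simp; omega)
  have h5 : (adp p y a : MvPolynomial (Fin 3) K →+* MvPolynomial (Fin 3) K) (dl p y ^ s * g) =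
      C ((p (y, 1) - p (a, 1)) ^ s) * (adp p y a g * monomial (Finsupp.single 0 s) 1) := by
    show adp p y a (dl p y ^ s * g) = _
    rw [map_mul, map_pow, adp_dl_left, mul_pow, X_pow_eq_monomial, C_pow]
    ring
  rw [h5, coeff_C_mul, coeff_mul_monomial, mul_one] at h4
  rcases mul_eq_zero.1 h4 with h6 | h6
  · exact absurd h6 (pow_ne_zero _ (sub_ne_zero.2 h))
  · exact h6

theorem lin_coprime {a b c d : K} (h : a * d - b * c ≠ 0) :
    IsCoprime (Polynomial.C a + Polynomial.C b * Polynomial.X)
      (Polynomial.C c + Polynomial.C d * Polynomial.X) := by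
  refine ⟨Polynomial.C (d / (a * d - b * c)), Polynomial.C (-b / (a * d - b * c)), ?_⟩
  have h6 : Polynomial.C (d / (a * d - b * c)) * Polynomial.C a +
      Polynomial.C (-b / (a * d - b * c)) * Polynomial.C c = (1 : Polynomial K) := by
    rw [← Polynomial.C_mul, ← Polynomial.C_mul, ← Polynomial.C_add, ← Polynomial.C_1]
    congr 1
    rw [div_mul_eq_mul_div, div_mul_eq_mul_div, ← add_div, div_eq_one_iff_eq h]
    ring
  have h7 : Polynomial.C (d / (a * d - b * c)) * Polynomial.C b +
      Polynomial.C (-b / (a * d - b * c)) * Polynomial.C d = (0 : Polynomial K) := by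
    rw [← Polynomial.C_mul, ← Polynomial.C_mul, ← Polynomial.C_add, ← Polynomial.C_0]
    congr 1
    rw [div_mul_eq_mul_div, div_mul_eq_mul_div, ← add_div, div_eq_zero_iff]
    left
    ring
  linear_combination h6 + Polynomial.X * h7

/-- not collinear -/
def nc (p : V × Fin 2 → K) (y a b : V) : Prop :=
  (p (a, 0) - p (y, 0)) * (p (b, 1) - p (y, 1)) - (p (a, 1) - p (y, 1)) * (p (b, 0) - p (y, 0)) ≠ 0

theorem pin3 {p : V × Fin 2 → K} {y a b c : V} (ha : p (y, 1) ≠ p (a, 1))
    (hb : p (y, 1) ≠ p (b, 1)) (hc : p (y, 1) ≠ p (c, 1)) (hab : nc p y a b) (hbc : nc p y b c)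
    (hac : nc p y a c) {k δ q t : ℕ} (hk : ∀ s < t, k < s + 3 * min (δ - s) q)
    {f : MvPolynomial (Fin 3) K} (hf : f.IsHomogeneous k) (htk : t ≤ k + 1)
    (h1 : f ∈ eI p y a δ t q) (h2 : f ∈ eI p y b δ t q) (h3 : f ∈ eI p y c δ t q) :
    dl p y ^ t ∣ f := by
  have key : ∀ s, s ≤ t → dl p y ^ s ∣ f := by
    intro s
    induction s with
    | zero =>
      intro _
      rw [pow_zero]
      exact one_dvd _
    | succ s ih =>
      intro hs
      have hL : (dl p y ^ s).IsHomogeneous s := by
        have h3 := (brt_dl_hom p y).pow s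
        rwa [one_mul] at h3
      obtain ⟨g, hg, rfl⟩ := brt_dvd hL hf (by omega) (ih (by omega))
      have g1 := ph_dvd (pin_step ha (by omega) h1)
      have g2 := ph_dvd (pin_step hb (by omega) h2)
      have g3 := ph_dvd (pin_step hc (by omega) h3)
      have hz : ph p y g = 0 := by
        rw [ph_dl] at g1 g2 g3
        have c12 := ((lin_coprime hab).pow (m := min (δ - s) q) (n := min (δ - s) q))
        have c13 := ((lin_coprime hac).pow (m := min (δ - s) q) (n := min (δ - s) q))
        have c23 := ((lin_coprime hbc).pow (m := min (δ - s) q) (n := min (δ - s) q))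
        have g12 := (c13.mul_left c23).mul_dvd (c12.mul_dvd g1 g2) g3
        by_contra hne
        have h4 := Polynomial.natDegree_le_of_dvd g12 hne
        have h5 : ∀ x : V, p (y, 1) ≠ p (x, 1) → (Polynomial.C (p (x, 0) - p (y, 0)) +
            Polynomial.C (p (x, 1) - p (y, 1)) * Polynomial.X).natDegree = 1 := by
          intro x hx
          rw [add_comm]
          exact Polynomial.natDegree_linear (sub_ne_zero.2 hx.symm)
        have h5' : ∀ x : V, p (y, 1) ≠ p (x, 1) → (Polynomial.C (p (x, 0) - p (y, 0)) +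
            Polynomial.C (p (x, 1) - p (y, 1)) * Polynomial.X) ≠ 0 := by
          intro x hx h6
          have := h5 x hx
          rw [h6, Polynomial.natDegree_zero] at this
          omega
        rw [Polynomial.natDegree_mul (mul_ne_zero (pow_ne_zero _ (h5' a ha))
          (pow_ne_zero _ (h5' b hb))) (pow_ne_zero _ (h5' c hc)),
          Polynomial.natDegree_mul (pow_ne_zero _ (h5' a ha)) (pow_ne_zero _ (h5' b hb)),
          Polynomial.natDegree_pow, Polynomial.natDegree_pow, Polynomial.natDegree_pow,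
          h5 a ha, h5 b hb, h5 c hc] at h4
        have h6 := ph_natDegree (p := p) (v := y) hg
        have h7 := hk s (by omega)
        omega
      have h4 := dvd_of_ph hg hz
      rw [pow_succ]
      exact mul_dvd_mul_left _ h4
  exact key t le_rfl

end Pool.Agent.SplG
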