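import Pool.Agent.SplG.Pin
import Pool.Agent.SplG.CoreG

/-!
# The configuration `T1` at a special position

`a = (0, 1)`, `b = (0, 0)`, `c = (0, θ)`, `x = (1, 2)`, `y = (1, 3)`; `x` is joined to `a`, `b`, `c`, `y` is joined to `x`, `b`, `c`; `a`, `b`, `c` are pinned.
-/

set_option autoImplicit false
set_option linter.unusedSectionVars false
set_option linter.unusedDecidableInType false
set_option linter.unusedFintypeInType false

namespace Pool.Agent.SplG

open MvPolynomial Pool.Agent.Spl2

/-- the ideal of the polynomials whose low coefficients are divisible by powers of `a` -/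
def Jc {R : Type*} [CommRing R] (a : R) (δ n q : ℕ) : Ideal (Polynomial R) where
  carrier := {G | ∀ s < n, a ^ (min (δ - s) q) ∣ G.coeff s}
  add_mem' := by
    intro f g hf hg s hs
    rw [Polynomial.coeff_add]
    exact dvd_add (hf s hs) (hg s hs)
  zero_mem' := by
    intro s _
    rw [Polynomial.coeff_zero]
    exact dvd_zero _
  smul_mem' := by
    intro c f hf s hs
    rw [smul_eq_mul, Polynomial.coeff_mul]
    refine Finset.dvd_sum fun ij hij => ?_
    rw [Finset.HasAntidiagonal.mem_antidiagonal] at hij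
    refine Dvd.dvd.mul_left ((pow_dvd_pow a ?_).trans (hf ij.2 (by omega))) _
    omega

theorem mem_Jc {R : Type*} [CommRing R] {a : R} {δ n q : ℕ} {G : Polynomial R} :
    G ∈ Jc a δ n q ↔ ∀ s < n, a ^ (min (δ - s) q) ∣ G.coeff s := Iff.rfl

theorem pow_le_Jc {R : Type*} [CommRing R] (a : R) (δ n q : ℕ) :
    (Ideal.span {(Polynomial.X : Polynomial R), Polynomial.C a}) ^ δ ≤ Jc a δ n q := by
  induction δ with
  | zero =>
    intro G _
    rw [mem_Jc]
    intro s _
    rw [Nat.zero_sub, Nat.zero_min, pow_zero]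
    exact one_dvd _
  | succ d ih =>
    rw [pow_succ', Ideal.mul_le]
    intro f hf g hg
    have hg' := ih hg
    have hX : Polynomial.X * g ∈ Jc a (d + 1) n q := by
      rw [mem_Jc]
      intro s hs
      cases s with
      | zero => simp
      | succ s =>
        rw [Polynomial.coeff_X_mul]
        refine (pow_dvd_pow a ?_).trans (hg' s (by omega))
        omega
    have hC : Polynomial.C a * g ∈ Jc a (d + 1) n q := by
      rw [mem_Jc]
      intro s hs
      rw [Polynomial.coeff_C_mul]
      refine (pow_dvd_pow a (n := 1 + min (d - s) q) ?_).trans ?_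
      · omega
      · rw [pow_add, pow_one]
        exact mul_dvd_mul_left a (hg' s hs)
    obtain ⟨x, y, rfl⟩ := Ideal.mem_span_pair.1 hf
    rw [add_mul, mul_assoc, mul_assoc]
    exact Ideal.add_mem _ (Ideal.mul_mem_left _ _ hX) (Ideal.mul_mem_left _ _ hC)

variable {V : Type*} [Fintype V] [DecidableEq V] {K : Type*} [Field K]

theorem map_Jc {p : V × Fin 2 → K} {u v : V} {δ s t : ℕ} {R : Type*} [CommRing R]
    (φ : MvPolynomial (Fin 3) K →+* Polynomial R) {a : R}
    (hu : φ (dl p u) = Polynomial.X) (hv : φ (dl p v) = Polynomial.C a)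
    {f : MvPolynomial (Fin 3) K} (hf : f ∈ eI p u v δ s t) : φ f ∈ Jc a δ s t := by
  have h1 : φ f ∈ (eI p u v δ s t).map φ := Ideal.mem_map_of_mem φ hf
  have h2 : (eI p u v δ s t).map φ ≤ Jc a δ s t := by
    unfold eI
    rw [Ideal.map_sup, Ideal.map_sup, Ideal.map_pow]
    refine sup_le ?_ (sup_le ?_ ?_)
    · rw [Ideal.map_span, Set.image_pair, hu, hv]
      exact pow_le_Jc a δ s t
    · rw [Ideal.map_span, Ideal.span_le, Set.image_singleton, Set.singleton_subset_iff, map_pow, hu,
        SetLike.mem_coe, mem_Jc]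
      intro i hi
      rw [Polynomial.coeff_X_pow, if_neg (by omega)]
      exact dvd_zero _
    · rw [Ideal.map_span, Ideal.span_le, Set.image_singleton, Set.singleton_subset_iff, map_pow, hv,
        SetLike.mem_coe, mem_Jc, ← Polynomial.C_pow]
      intro i hi
      rw [Polynomial.coeff_C]
      split_ifs
      · exact pow_dvd_pow a (min_le_right _ _)
      · exact dvd_zero _
  exact h2 h1

/-- coordinates in which `L_v` becomes `X 0` -/
noncomputable def sg (l : K) : MvPolynomial (Fin 3) K →ₐ[K] MvPolynomial (Fin 3) K :=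
  aeval ![X 0 - C l * X 1 - X 2, X 1, X 2]

/-- the inverse -/
noncomputable def sgi (l : K) : MvPolynomial (Fin 3) K →ₐ[K] MvPolynomial (Fin 3) K :=
  aeval ![X 0 + C l * X 1 + X 2, X 1, X 2]

theorem sgi_sg (l : K) (f : MvPolynomial (Fin 3) K) : sgi l (sg l f) = f := by
  have h1 : (sgi l).comp (sg l) = AlgHom.id K _ := by
    apply MvPolynomial.algHom_ext
    intro i
    fin_cases i
    · simp only [sgi, sg, AlgHom.comp_apply, aeval_X, Fin.zero_eta, Matrix.cons_val_zero,
        Matrix.cons_val_one, map_mul, map_sub, algHom_C, algebraMap_eq,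
        AlgHom.id_apply, Matrix.cons_val]
      ring
    · simp [sgi, sg]
    · simp [sgi, sg]
  exact DFunLike.congr_fun h1 f

theorem sg_homog (l : K) {k : ℕ} {f : MvPolynomial (Fin 3) K}
    (hf : f.IsHomogeneous k) : (sg l f).IsHomogeneous k := by
  have hg : ∀ i, ((![X 0 - C l * X 1 - X 2, X 1, X 2] :
      Fin 3 → MvPolynomial (Fin 3) K) i).IsHomogeneous 1 := by
    intro i
    fin_cases i
    · exact ((isHomogeneous_X _ _).sub (isHomogeneous_C_mul_X _ _)).sub (isHomogeneous_X _ _)
    · exact isHomogeneous_X _ _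
    · exact isHomogeneous_X _ _
  have := hf.aeval _ hg
  rw [one_mul] at this
  exact this

/-- the expansion in powers of `X 0`, with `X 2 = 1` -/
noncomputable def de (K : Type*) [Field K] :
    MvPolynomial (Fin 3) K →ₐ[K] Polynomial (Polynomial K) :=
  aeval ![Polynomial.X, Polynomial.C Polynomial.X, 1]

theorem de_eq (f : MvPolynomial (Fin 3) K) : de K f = ∑ m ∈ f.support,
    Polynomial.C (Polynomial.C (coeff m f) * Polynomial.X ^ (m 1)) * Polynomial.X ^ (m 0) := by
  unfold de
  rw [aeval_def, eval₂_eq']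
  refine Finset.sum_congr rfl fun m _ => ?_
  rw [Fin.prod_univ_three, Polynomial.C_mul, Polynomial.C_pow]
  simp only [Matrix.cons_val_zero, Matrix.cons_val_one, Matrix.cons_val, one_pow, mul_one]
  have h1 : (algebraMap K (Polynomial (Polynomial K))) (coeff m f) =
      Polynomial.C (Polynomial.C (coeff m f)) := rfl
  rw [h1]
  ring

theorem coeff_de {k : ℕ} {f : MvPolynomial (Fin 3) K} (hf : f.IsHomogeneous k) (s j : ℕ) :
    ((de K f).coeff s).coeff j = if s + j ≤ k then coeff (ex3 s j (k - s - j)) f else 0 := by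
  have hw : ∀ m : Fin 3 →₀ ℕ, coeff m f ≠ 0 → m 0 + m 1 + m 2 = k := by
    intro m hm
    have h7 := hf hm
    rw [← h7, Finsupp.weight_apply, Finsupp.sum_fintype _ _ (by simp), Fin.sum_univ_three]
    simp
  rw [de_eq, Polynomial.finsetSum_coeff, Polynomial.finsetSum_coeff]
  have h1 : ∀ m ∈ f.support, ((Polynomial.C (Polynomial.C (coeff m f) * Polynomial.X ^ (m 1)) *
      Polynomial.X ^ (m 0)).coeff s).coeff j = if m = ex3 s j (k - s - j) then coeff m f else 0 := by
    intro m hm
    have h2 := hw m (mem_support_iff.1 hm)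
    rw [Polynomial.coeff_C_mul, Polynomial.coeff_X_pow]
    by_cases h3 : s = m 0
    · rw [if_pos h3, mul_one, Polynomial.coeff_C_mul, Polynomial.coeff_X_pow]
      by_cases h4 : j = m 1
      · rw [if_pos h4, mul_one, if_pos]
        rw [h3, h4, show k - m 0 - m 1 = m 2 by omega]
        exact eq_ex3 m
      · rw [if_neg h4, mul_zero, if_neg]
        rintro rfl
        exact h4 rfl
    · rw [if_neg h3, mul_zero, Polynomial.coeff_zero, if_neg]
      rintro rfl
      exact h3 rfl
  rw [Finset.sum_congr rfl h1, Finset.sum_ite_eq']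
  by_cases h3 : ex3 s j (k - s - j) ∈ f.support
  · have h4 := hw _ (mem_support_iff.1 h3)
    rw [ex3_zero, ex3_one, ex3_two] at h4
    rw [if_pos h3, if_pos (by omega)]
  · rw [if_neg h3]
    rw [mem_support_iff, not_not] at h3
    rw [h3]
    simp

/-- if the low coefficients vanish, `f` is divisible by a power of the line -/
theorem dvd_of_sg {p : V × Fin 2 → K} {v : V} {l : K} (h0 : p (v, 0) = 1) (h1 : p (v, 1) = l)
    {k s : ℕ} {f : MvPolynomial (Fin 3) K} (hf : f.IsHomogeneous k)
    (h : ∀ i < s, (de K (sg l f)).coeff i = 0) : dl p v ^ s ∣ f := by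
  have hF := sg_homog l hf
  have h2 : X 0 ^ s ∣ sg l f := by
    rw [X_pow_dvd_iff']
    intro m hm
    by_contra h3
    have h4 : m 0 + m 1 + m 2 = k := by
      have h7 := hF h3
      rw [← h7, Finsupp.weight_apply, Finsupp.sum_fintype _ _ (by simp), Fin.sum_univ_three]
      simp
    have h5 := coeff_de hF (m 0) (m 1)
    rw [h (m 0) hm, Polynomial.coeff_zero, if_pos (by omega),
      show k - m 0 - m 1 = m 2 by omega, ← eq_ex3] at h5
    exact h3 h5.symm
  have h3 := map_dvd (sgi l) h2
  rw [sgi_sg, map_pow] at h3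
  have h4 : sgi l (X 0) = dl p v := by
    simp only [sgi, dl, aeval_X, Matrix.cons_val_zero, h0, h1, C_1, one_mul]
  rwa [h4] at h3

theorem sg_dl {p : V × Fin 2 → K} {v : V} {l : K} (h0 : p (v, 0) = 1) (h1 : p (v, 1) = l) :
    sg l (dl p v) = X 0 := by
  simp only [sg, dl, map_add, map_mul, aeval_X, algHom_C, algebraMap_eq, Matrix.cons_val_zero,
    Matrix.cons_val_one, Matrix.cons_val, h0, h1, C_1, one_mul]
  ring

theorem sg_dl0 {p : V × Fin 2 → K} {v : V} (l : K) (h0 : p (v, 0) = 0) :
    sg l (dl p v) = C (p (v, 1)) * X 1 + X 2 := by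
  simp only [sg, dl, map_add, map_mul, aeval_X, algHom_C, algebraMap_eq, Matrix.cons_val_zero,
    Matrix.cons_val_one, Matrix.cons_val, h0, C_0, zero_mul, zero_add]

/-- the conditions at the pinned vertices on the line `ξ = 0` -/
theorem cond_dvd {p : V × Fin 2 → K} {v w : V} {l : K} (h0 : p (v, 0) = 1) (h1 : p (v, 1) = l)
    (hw : p (w, 0) = 0) {δ s t : ℕ} {f : MvPolynomial (Fin 3) K} (hf : f ∈ eI p v w δ s t) :
    ∀ i < s, (1 + Polynomial.C (p (w, 1)) * Polynomial.X) ^ (min (δ - i) t) ∣
      (de K (sg l f)).coeff i := by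
  have h2 := map_Jc (((de K).comp (sg l) : MvPolynomial (Fin 3) K →ₐ[K] _) :
    MvPolynomial (Fin 3) K →+* Polynomial (Polynomial K))
    (a := 1 + Polynomial.C (p (w, 1)) * Polynomial.X)
    (by
      show de K (sg l (dl p v)) = Polynomial.X
      rw [sg_dl h0 h1]
      simp [de])
    (by
      show de K (sg l (dl p w)) = _
      rw [sg_dl0 l hw]
      have h3 : de K (C (p (w, 1))) = Polynomial.C (Polynomial.C (p (w, 1))) := by
        rw [algHom_C]
        rfl
      rw [map_add, map_mul, h3]
      simp only [de, aeval_X, Matrix.cons_val_one, Matrix.cons_val_zero, Matrix.cons_val,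
        map_add, map_mul, Polynomial.C_1]
      ring) hf
  exact mem_Jc.1 h2

/-- the condition at `b` -/
theorem cond_b {p : V × Fin 2 → K} {v w : V} {l : K} (h0 : p (v, 0) = 1) (h1 : p (v, 1) = l)
    (hw : p (w, 0) = 0) (hw1 : p (w, 1) = 0) {k δ s t : ℕ} {f : MvPolynomial (Fin 3) K}
    (hk : f.IsHomogeneous k) (hf : f ∈ eI p v w δ s t) :
    ∀ i < s, ∀ m, k < i + min (δ - i) t + m → ((de K (sg l f)).coeff i).coeff m = 0 := by
  intro i hi m hm
  rw [coeff_de (sg_homog l hk)]
  split_ifs with h2
  · have h3 := map_eI (a := 0) (b := 2) (by decide) (sg l : _ →+* _)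
      (by
        show X 0 ∣ sg l (dl p v)
        rw [sg_dl h0 h1])
      (by
        show X 2 ∣ sg l (dl p w)
        rw [sg_dl0 l hw, hw1, C_0, zero_mul, zero_add]) hf
    refine mem_mI.1 h3 _ ?_ ?_ ?_
    · rw [ex3_zero, ex3_two]
      omega
    · rw [ex3_zero]
      exact hi
    · rw [ex3_two]
      omega
  · rfl

end Pool.Agent.SplG
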