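import Pool.Agent.SplG.TOne

/-!
# The configuration `T1`: the edge `x y`
-/

set_option autoImplicit false
set_option linter.unusedSectionVars false
set_option linter.unusedDecidableInType false
set_option linter.unusedFintypeInType false

namespace Pool.Agent.SplG

open MvPolynomial Pool.Agent.Spl2

variable {V : Type*} [Fintype V] [DecidableEq V] {K : Type*} [Field K]

theorem ex3_inj {i j l i' j' l' : ℕ} : ex3 i j l = ex3 i' j' l' ↔ i = i' ∧ j = j' ∧ l = l' := by
  constructor
  · intro h
    exact ⟨DFunLike.congr_fun h 0, DFunLike.congr_fun h 1, DFunLike.congr_fun h 2⟩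
  · rintro ⟨rfl, rfl, rfl⟩
    rfl

theorem mon_ex3 (i j : ℕ) : (X 0 : MvPolynomial (Fin 3) K) ^ i * X 1 ^ j = monomial (ex3 i j 0) 1 := by
  rw [monomial_eq, Finsupp.prod_fintype _ _ (by simp), Fin.prod_univ_three]
  simp [ex3]

theorem pow_exp (m : ℕ) : ((X 1 : MvPolynomial (Fin 3) K) - X 0) ^ m =
    ∑ a ∈ Finset.range (m + 1), C ((-1) ^ a * (m.choose a : K)) * (X 0 ^ a * X 1 ^ (m - a)) := by
  rw [sub_eq_neg_add, add_pow]
  refine Finset.sum_congr rfl fun a _ => ?_
  rw [neg_pow, C_mul, C_pow, C_neg, C_1]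
  have h : (C (m.choose a : K) : MvPolynomial (Fin 3) K) = (m.choose a : MvPolynomial (Fin 3) K) :=
    map_natCast C _
  rw [h]
  ring

theorem cX (i j m s : ℕ) : coeff (ex3 i j 0) (((X 1 : MvPolynomial (Fin 3) K) - X 0) ^ m * X 0 ^ s) =
    if s ≤ i ∧ s + m = i + j then (-1) ^ (i - s) * (m.choose (i - s) : K) else 0 := by
  rw [pow_exp, Finset.sum_mul, coeff_sum]
  have h1 : ∀ a ∈ Finset.range (m + 1), coeff (ex3 i j 0)
      (C ((-1) ^ a * (m.choose a : K)) * (X 0 ^ a * X 1 ^ (m - a)) * X 0 ^ s) =
      if a + s = i ∧ m - a = j then (-1) ^ a * (m.choose a : K) else 0 := by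
    intro a _
    have h2 : (C ((-1) ^ a * (m.choose a : K)) * (X 0 ^ a * X 1 ^ (m - a)) * X 0 ^ s :
        MvPolynomial (Fin 3) K) = C ((-1) ^ a * (m.choose a : K)) * (X 0 ^ (a + s) * X 1 ^ (m - a)) := by
      ring
    rw [h2, mon_ex3, coeff_C_mul, coeff_monomial]
    by_cases h3 : a + s = i ∧ m - a = j
    · rw [if_pos (ex3_inj.2 ⟨h3.1, h3.2, rfl⟩), if_pos h3, mul_one]
    · rw [if_neg (fun h => h3 ⟨(ex3_inj.1 h).1, (ex3_inj.1 h).2.1⟩), if_neg h3, mul_zero]
  rw [Finset.sum_congr rfl h1]
  by_cases h3 : s ≤ i ∧ s + m = i + j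
  · rw [if_pos h3, Finset.sum_eq_single (i - s)]
    · rw [if_pos (by omega)]
    · intro a _ ha
      rw [if_neg (by omega)]
    · intro ha
      rw [Finset.mem_range] at ha
      omega
  · rw [if_neg h3]
    refine Finset.sum_eq_zero fun a ha => ?_
    rw [Finset.mem_range] at ha
    rw [if_neg (by omega)]

theorem cY (i j m s : ℕ) : coeff (ex3 i j 0) (((X 1 : MvPolynomial (Fin 3) K) - X 0) ^ m * X 1 ^ s) =
    if s ≤ j ∧ s + m = i + j then (-1) ^ i * (m.choose i : K) else 0 := by
  rw [pow_exp, Finset.sum_mul, coeff_sum]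
  have h1 : ∀ a ∈ Finset.range (m + 1), coeff (ex3 i j 0)
      (C ((-1) ^ a * (m.choose a : K)) * (X 0 ^ a * X 1 ^ (m - a)) * X 1 ^ s) =
      if a = i ∧ m - a + s = j then (-1) ^ a * (m.choose a : K) else 0 := by
    intro a _
    have h2 : (C ((-1) ^ a * (m.choose a : K)) * (X 0 ^ a * X 1 ^ (m - a)) * X 1 ^ s :
        MvPolynomial (Fin 3) K) = C ((-1) ^ a * (m.choose a : K)) * (X 0 ^ a * X 1 ^ (m - a + s)) := by
      ring
    rw [h2, mon_ex3, coeff_C_mul, coeff_monomial]
    by_cases h3 : a = i ∧ m - a + s = j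
    · rw [if_pos (ex3_inj.2 ⟨h3.1, h3.2, rfl⟩), if_pos h3, mul_one]
    · rw [if_neg (fun h => h3 ⟨(ex3_inj.1 h).1, (ex3_inj.1 h).2.1⟩), if_neg h3, mul_zero]
  rw [Finset.sum_congr rfl h1]
  by_cases h3 : s ≤ j ∧ s + m = i + j
  · rw [if_pos h3, Finset.sum_eq_single i]
    · rw [if_pos (by omega)]
    · intro a _ ha
      rw [if_neg (by omega)]
    · intro ha
      rw [Finset.mem_range] at ha
      omega
  · rw [if_neg h3]
    refine Finset.sum_eq_zero fun a ha => ?_
    rw [Finset.mem_range] at ha
    rw [if_neg (by omega)]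

/-- `Y ↦ X c`, `X ↦ X 1 - X 0` -/
noncomputable def ev (K : Type*) [Field K] (c : Fin 3) :
    Polynomial (Polynomial K) →+* MvPolynomial (Fin 3) K :=
  Polynomial.eval₂RingHom
    ((Polynomial.aeval ((X 1 : MvPolynomial (Fin 3) K) - X 0) :
      Polynomial K →ₐ[K] MvPolynomial (Fin 3) K) : Polynomial K →+* MvPolynomial (Fin 3) K) (X c)

theorem ev_mon (c : Fin 3) (s m : ℕ) (a : K) :
    ev K c (Polynomial.monomial s (Polynomial.monomial m a)) =
      C a * (((X 1 : MvPolynomial (Fin 3) K) - X 0) ^ m * X c ^ s) := by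
  unfold ev
  rw [Polynomial.coe_eval₂RingHom, Polynomial.eval₂_monomial]
  show Polynomial.aeval ((X 1 : MvPolynomial (Fin 3) K) - X 0) (Polynomial.monomial m a) * _ = _
  rw [Polynomial.aeval_monomial, algebraMap_eq, mul_assoc]

theorem coeff_ev0 (i j : ℕ) (G : Polynomial (Polynomial K)) : coeff (ex3 i j 0) (ev K 0 G) =
    ∑ s ∈ Finset.range (i + 1), (-1) ^ (i - s) * ((i + j - s).choose (i - s) : K) *
      (G.coeff s).coeff (i + j - s) := by
  induction G using Polynomial.induction_on' with
  | add G H hG hH =>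
    rw [map_add, coeff_add, hG, hH, ← Finset.sum_add_distrib]
    refine Finset.sum_congr rfl fun s _ => ?_
    rw [Polynomial.coeff_add, Polynomial.coeff_add]
    ring
  | monomial s g =>
    induction g using Polynomial.induction_on' with
    | add G H hG hH =>
      rw [map_add, map_add, coeff_add, hG, hH, ← Finset.sum_add_distrib]
      refine Finset.sum_congr rfl fun s _ => ?_
      rw [Polynomial.coeff_add, Polynomial.coeff_add]
      ring
    | monomial m a =>
      rw [ev_mon, coeff_C_mul, cX]
      have h1 : ∀ s' ∈ Finset.range (i + 1),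
          (-1) ^ (i - s') * ((i + j - s').choose (i - s') : K) *
          (((Polynomial.monomial s) ((Polynomial.monomial m) a)).coeff s').coeff (i + j - s') =
          if s' = s then (if s ≤ i ∧ s + m = i + j then
            a * ((-1) ^ (i - s) * (m.choose (i - s) : K)) else 0) else 0 := by
        intro s' hs'
        rw [Finset.mem_range] at hs'
        rw [Polynomial.coeff_monomial]
        by_cases h2 : s = s'
        · subst h2
          rw [if_pos rfl, if_pos rfl, Polynomial.coeff_monomial]
          by_cases h3 : m = i + j - s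
          · rw [if_pos h3, if_pos (by omega), ← h3]
            ring
          · rw [if_neg h3, if_neg (by omega), mul_zero]
        · rw [if_neg h2, if_neg (Ne.symm h2), Polynomial.coeff_zero, mul_zero]
      rw [Finset.sum_congr rfl h1, Finset.sum_ite_eq']
      by_cases h3 : s ≤ i ∧ s + m = i + j
      · rw [if_pos h3, if_pos (Finset.mem_range.2 (by omega)), if_pos h3]
      · rw [if_neg h3, mul_zero, if_neg h3, ite_self]

theorem coeff_ev1 (i j : ℕ) (G : Polynomial (Polynomial K)) : coeff (ex3 i j 0) (ev K 1 G) =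
    ∑ s ∈ Finset.range (j + 1), (-1) ^ i * ((i + j - s).choose i : K) *
      (G.coeff s).coeff (i + j - s) := by
  induction G using Polynomial.induction_on' with
  | add G H hG hH =>
    rw [map_add, coeff_add, hG, hH, ← Finset.sum_add_distrib]
    refine Finset.sum_congr rfl fun s _ => ?_
    rw [Polynomial.coeff_add, Polynomial.coeff_add]
    ring
  | monomial s g =>
    induction g using Polynomial.induction_on' with
    | add G H hG hH =>
      rw [map_add, map_add, coeff_add, hG, hH, ← Finset.sum_add_distrib]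
      refine Finset.sum_congr rfl fun s _ => ?_
      rw [Polynomial.coeff_add, Polynomial.coeff_add]
      ring
    | monomial m a =>
      rw [ev_mon, coeff_C_mul, cY]
      have h1 : ∀ s' ∈ Finset.range (j + 1),
          (-1) ^ i * ((i + j - s').choose i : K) *
          (((Polynomial.monomial s) ((Polynomial.monomial m) a)).coeff s').coeff (i + j - s') =
          if s' = s then (if s ≤ j ∧ s + m = i + j then
            a * ((-1) ^ i * (m.choose i : K)) else 0) else 0 := by
        intro s' hs'
        rw [Finset.mem_range] at hs'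
        rw [Polynomial.coeff_monomial]
        by_cases h2 : s = s'
        · subst h2
          rw [if_pos rfl, if_pos rfl, Polynomial.coeff_monomial]
          by_cases h3 : m = i + j - s
          · rw [if_pos h3, if_pos (by omega), ← h3]
            ring
          · rw [if_neg h3, if_neg (by omega), mul_zero]
        · rw [if_neg h2, if_neg (Ne.symm h2), Polynomial.coeff_zero, mul_zero]
      rw [Finset.sum_congr rfl h1, Finset.sum_ite_eq']
      by_cases h3 : s ≤ j ∧ s + m = i + j
      · rw [if_pos h3, if_pos (Finset.mem_range.2 (by omega)), if_pos h3]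
      · rw [if_neg h3, mul_zero, if_neg h3, ite_self]

/-- coordinates for the edge `x y` -/
noncomputable def rh (l : K) : MvPolynomial (Fin 3) K →ₐ[K] MvPolynomial (Fin 3) K :=
  aeval ![X 0 - C l * (X 1 - X 0) - 1, X 1 - X 0, 1]

theorem ev_C (c : Fin 3) (a : K) : ev K c (Polynomial.C (Polynomial.C a)) = C a := by
  rw [← Polynomial.monomial_zero_left, ← Polynomial.monomial_zero_left, ev_mon]
  simp

theorem ev_CX (c : Fin 3) : ev K c (Polynomial.C Polynomial.X) = X 1 - X 0 := by
  rw [← Polynomial.monomial_zero_left, ← Polynomial.monomial_one_one_eq_X, ev_mon]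
  simp

theorem ev_X (c : Fin 3) : ev K c Polynomial.X = X c := by
  unfold ev
  simp

theorem rh_x (l : K) (f : MvPolynomial (Fin 3) K) : ev K 0 (de K (sg l f)) = rh l f := by
  have h1 : (ev K 0).comp (((de K).comp (sg l) : MvPolynomial (Fin 3) K →ₐ[K] _) :
      MvPolynomial (Fin 3) K →+* Polynomial (Polynomial K)) =
      ((rh l : MvPolynomial (Fin 3) K →ₐ[K] _) : MvPolynomial (Fin 3) K →+* _) := by
    apply MvPolynomial.ringHom_ext
    · intro a
      show ev K 0 (de K (sg l (C a))) = rh l (C a)
      rw [algHom_C, algebraMap_eq, algHom_C, algHom_C]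
      exact ev_C 0 a
    · intro i
      show ev K 0 (de K (sg l (X i))) = rh l (X i)
      have h2 : de K (C l) = Polynomial.C (Polynomial.C l) := by
        rw [algHom_C]
        rfl
      fin_cases i
      · simp only [sg, rh, aeval_X, Fin.zero_eta, Matrix.cons_val_zero, map_sub, map_mul, h2]
        simp only [de, aeval_X, Matrix.cons_val_zero, Matrix.cons_val_one, Matrix.cons_val,
          ev_C, ev_CX, ev_X, map_one]
      · simp [sg, rh, de, ev_CX]
      · simp [sg, rh, de]
  exact RingHom.congr_fun h1 f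

theorem rh_y (l : K) (f : MvPolynomial (Fin 3) K) : ev K 1 (de K (sg (l + 1) f)) = rh l f := by
  have h1 : (ev K 1).comp (((de K).comp (sg (l + 1)) : MvPolynomial (Fin 3) K →ₐ[K] _) :
      MvPolynomial (Fin 3) K →+* Polynomial (Polynomial K)) =
      ((rh l : MvPolynomial (Fin 3) K →ₐ[K] _) : MvPolynomial (Fin 3) K →+* _) := by
    apply MvPolynomial.ringHom_ext
    · intro a
      show ev K 1 (de K (sg (l + 1) (C a))) = rh l (C a)
      rw [algHom_C, algebraMap_eq, algHom_C, algHom_C]
      exact ev_C 1 a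
    · intro i
      show ev K 1 (de K (sg (l + 1) (X i))) = rh l (X i)
      have h2 : de K (C (l + 1)) = Polynomial.C (Polynomial.C (l + 1)) := by
        rw [algHom_C]
        rfl
      fin_cases i
      · simp only [sg, rh, aeval_X, Fin.zero_eta, Matrix.cons_val_zero, map_sub, map_mul, h2]
        simp only [de, aeval_X, Matrix.cons_val_zero, Matrix.cons_val_one, Matrix.cons_val,
          ev_C, ev_CX, ev_X, map_one, C_add]
        ring
      · simp [sg, rh, de, ev_CX]
      · simp [sg, rh, de]
  exact RingHom.congr_fun h1 f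

/-- the relation of the edge `x y` -/
theorem cond_xy {p : V × Fin 2 → K} {x y : V} {l : K} (hx0 : p (x, 0) = 1) (hx1 : p (x, 1) = l)
    (hy0 : p (y, 0) = 1) (hy1 : p (y, 1) = l + 1) {δ q t : ℕ} {f g : MvPolynomial (Fin 3) K}
    (h : f - g ∈ eI p x y δ q t) (i j : ℕ) (hi : i < q) (hj : j < t) (hij : i + j < δ) :
    ∑ s ∈ Finset.range (i + 1), (-1) ^ s * ((i + j - s).choose (i - s) : K) *
      ((de K (sg l f)).coeff s).coeff (i + j - s) =
    ∑ s ∈ Finset.range (j + 1), ((i + j - s).choose (j - s) : K) *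
      ((de K (sg (l + 1) g)).coeff s).coeff (i + j - s) := by
  have h1 := map_eI (a := 0) (b := 1) (by decide) (rh l : _ →+* _)
      (by
        show X 0 ∣ rh l (dl p x)
        have h2 : rh l (dl p x) = X 0 := by
          simp only [rh, dl, map_add, map_mul, map_one, aeval_X, algHom_C, algebraMap_eq, hx0, hx1,
            Matrix.cons_val_zero, Matrix.cons_val_one, Matrix.cons_val]
          ring
        rw [h2])
      (by
        show X 1 ∣ rh l (dl p y)
        have h2 : rh l (dl p y) = X 1 := by
          simp only [rh, dl, map_add, map_mul, map_one, aeval_X, algHom_C, algebraMap_eq, hy0, hy1,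
            Matrix.cons_val_zero, Matrix.cons_val_one, Matrix.cons_val]
          ring
        rw [h2]) h
  have h2 := mem_mI.1 h1 (ex3 i j 0) hij hi hj
  have h3 : rh l (f - g) = ev K 0 (de K (sg l f)) - ev K 1 (de K (sg (l + 1) g)) := by
    rw [rh_x, rh_y, map_sub]
  change coeff (ex3 i j 0) (rh l (f - g)) = 0 at h2
  rw [h3, coeff_sub, coeff_ev0, coeff_ev1, sub_eq_zero] at h2
  have e1 : ∀ s ∈ Finset.range (i + 1), (-1) ^ s * ((i + j - s).choose (i - s) : K) *
      ((de K (sg l f)).coeff s).coeff (i + j - s) = (-1) ^ i * ((-1) ^ (i - s) *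
        ((i + j - s).choose (i - s) : K) * ((de K (sg l f)).coeff s).coeff (i + j - s)) := by
    intro s hs
    rw [Finset.mem_range] at hs
    have h4 : (-1 : K) ^ s = (-1) ^ i * (-1) ^ (i - s) := by
      obtain ⟨c, rfl⟩ := Nat.exists_eq_add_of_le (Nat.lt_succ_iff.1 hs)
      rw [Nat.add_sub_cancel_left, pow_add, mul_assoc, ← mul_pow]
      simp
    rw [h4]
    ring
  have e2 : ∀ s ∈ Finset.range (j + 1), ((i + j - s).choose (j - s) : K) *
      ((de K (sg (l + 1) g)).coeff s).coeff (i + j - s) = (-1) ^ i * ((-1) ^ i *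
        ((i + j - s).choose i : K) * ((de K (sg (l + 1) g)).coeff s).coeff (i + j - s)) := by
    intro s hs
    rw [Finset.mem_range] at hs
    have h5 : (i + j - s).choose (j - s) = (i + j - s).choose i := by
      rw [← Nat.choose_symm (show i ≤ i + j - s by omega)]
      congr 1
      omega
    have h4 : (-1 : K) ^ i * (-1) ^ i = 1 := by
      rw [← mul_pow]
      simp
    rw [h5]
    linear_combination (-(((i + j - s).choose i : K) *
      ((de K (sg (l + 1) g)).coeff s).coeff (i + j - s))) * h4
  rw [Finset.sum_congr rfl e1, Finset.sum_congr rfl e2, ← Finset.mul_sum, ← Finset.mul_sum, h2]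

end Pool.Agent.SplG
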